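import Mathlib

set_option autoImplicit false

/-!
Balanced trees, decompositions into copies of a graph, and the set `S n`.
-/

namespace Pool.Agent.H216R3

open SimpleGraph

/-- `T` is a balanced tree `T_{n,n}`: a tree with a proper two-colouring whose two colour classes
both have exactly `n` vertices. -/
def IsBalancedTree {V : Type} (T : SimpleGraph V) (n : ℕ) : Prop :=
  T.IsTree ∧ ∃ c : T.Coloring Bool, {v | c v = true}.ncard = n ∧ {v | c v = false}.ncard = n

/-- `T` decomposes `H`: there is a set of subgraphs of `H`, each isomorphic to `T`, such that every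
edge of `H` lies in exactly one of them. -/
def Decomposes {V W : Type} (T : SimpleGraph V) (H : SimpleGraph W) : Prop :=
  ∃ 𝒟 : Set H.Subgraph, (∀ D ∈ 𝒟, Nonempty (T ≃g D.coe)) ∧
    ∀ e ∈ H.edgeSet, ∃! D : H.Subgraph, D ∈ 𝒟 ∧ e ∈ D.edgeSet

/-- `S n` is the set of positive integers `k` such that every balanced tree `T_{n,n}` decomposes
the complete bipartite graph `K_{2n-1,k}`. -/
def S (n : ℕ) : Set ℕ :=
  {k | 0 < k ∧ ∀ (V : Type) (T : SimpleGraph V), IsBalancedTree T n →
    Decomposes T (completeBipartiteGraph (Fin (2 * n - 1)) (Fin k))}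

end Pool.Agent.H216R3
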