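import Mathlib

set_option autoImplicit false

/-!
Labellings of one side of a bipartite tree: every neighbourhood `N x` receives the values of one
block `[u x, u x + |N x|)` whose start is a multiple of its length.
-/

namespace Pool.Agent.H216R3

open Finset

variable {X Y : Type} [Fintype X] [Fintype Y] [DecidableEq X] [DecidableEq Y]

/-- The values given by `s` to `N x` are exactly the block `[u x, u x + |N x|)`, and `|N x|`
divides `u x`. -/
structure Lab (N : X → Finset Y) (s : Y → ℕ) (u : X → ℕ) : Prop where
  dvd : ∀ x, (N x).card ∣ u x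
  lo : ∀ x, ∀ y ∈ N x, u x ≤ s y
  hi : ∀ x, ∀ y ∈ N x, s y < u x + (N x).card
  inj : ∀ x, Set.InjOn s (N x : Set Y)

lemma Lab.surj {N : X → Finset Y} {s : Y → ℕ} {u : X → ℕ} (h : Lab N s u) (x : X) (t : ℕ)
    (h1 : u x ≤ t) (h2 : t < u x + (N x).card) : ∃ y ∈ N x, s y = t := by
  have himg : (N x).image s = Ico (u x) (u x + (N x).card) := by
    apply Finset.eq_of_subset_of_card_le
    · intro a ha
      obtain ⟨y, hy, rfl⟩ := Finset.mem_image.1 ha
      exact Finset.mem_Ico.2 ⟨h.lo x y hy, h.hi x y hy⟩
    · rw [Finset.card_image_of_injOn (h.inj x)]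
      simp
  have : t ∈ (N x).image s := by
    rw [himg]; exact Finset.mem_Ico.2 ⟨h1, h2⟩
  obtain ⟨y, hy, rfl⟩ := Finset.mem_image.1 this
  exact ⟨y, hy, rfl⟩

/-- The part of `Y` reached from `y₀` through the vertices of `Z`. -/
def cov (N : X → Finset Y) (y₀ : Y) (Z : Finset X) : Finset Y := insert y₀ (Z.biUnion N)

lemma cov_insert (N : X → Finset Y) (y₀ : Y) (Z : Finset X) (x : X) :
    cov N y₀ (insert x Z) = cov N y₀ Z ∪ N x := by
  unfold cov
  rw [Finset.biUnion_insert]
  ext y
  simp only [Finset.mem_insert, Finset.mem_union]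
  tauto

/-- Each new vertex adds at most `|N x| - 1` new elements. -/
lemma card_le_cov (N : X → Finset Y) (y₀ : Y)
    (hconn : ∀ Z : Finset X, Z ≠ univ → ∃ x, x ∉ Z ∧ ∃ y ∈ N x, y ∈ cov N y₀ Z)
    (hcov : cov N y₀ univ = univ) :
    ∀ (m : ℕ) (Z : Finset X), (univ \ Z).card = m →
      Fintype.card Y ≤ (cov N y₀ Z).card + ∑ x ∈ univ \ Z, ((N x).card - 1) := by
  intro m
  induction m with
  | zero =>
    intro Z hZ
    have hZ' : Z = univ := by
      rw [Finset.card_eq_zero] at hZ
      exact Finset.eq_univ_iff_forall.2 fun x => by
        by_contra hx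
        have : x ∈ univ \ Z := Finset.mem_sdiff.2 ⟨Finset.mem_univ _, hx⟩
        rw [hZ] at this
        exact absurd this (Finset.notMem_empty _)
    subst hZ'
    rw [hcov]
    simp [Finset.card_univ]
  | succ m ih =>
    intro Z hZ
    have hZ' : Z ≠ univ := by
      rintro rfl
      simp at hZ
    obtain ⟨x, hx, y, hy, hyc⟩ := hconn Z hZ'
    have hcard : (univ \ insert x Z).card = m := by
      have h1 : univ \ insert x Z = (univ \ Z).erase x := by
        ext z
        simp only [Finset.mem_sdiff, Finset.mem_univ, true_and, Finset.mem_insert,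
          Finset.mem_erase]
        tauto
      rw [h1, Finset.card_erase_of_mem (Finset.mem_sdiff.2 ⟨Finset.mem_univ _, hx⟩), hZ]
      rfl
    have h2 := ih (insert x Z) hcard
    have h3 : (cov N y₀ (insert x Z)).card ≤ (cov N y₀ Z).card + ((N x).card - 1) := by
      rw [cov_insert]
      have h4 : cov N y₀ Z ∪ N x = cov N y₀ Z ∪ (N x).erase y := by
        ext z
        simp only [Finset.mem_union, Finset.mem_erase]
        constructor
        · rintro (h | h)
          · exact Or.inl h
          · by_cases hz : z = y
            · subst hz; exact Or.inl hyc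
            · exact Or.inr ⟨hz, h⟩
        · rintro (h | h)
          · exact Or.inl h
          · exact Or.inr h.2
      rw [h4]
      refine (Finset.card_union_le _ _).trans ?_
      rw [Finset.card_erase_of_mem hy]
    have h5 : ∑ z ∈ univ \ Z, ((N z).card - 1)
        = ((N x).card - 1) + ∑ z ∈ univ \ insert x Z, ((N z).card - 1) := by
      have h1 : univ \ Z = insert x (univ \ insert x Z) := by
        ext z
        simp only [Finset.mem_sdiff, Finset.mem_univ, true_and, Finset.mem_insert]
        constructor
        · intro h
          by_cases hz : z = x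
          · exact Or.inl hz
          · exact Or.inr (by tauto)
        · rintro (h | h)
          · subst h; exact hx
          · tauto
      conv_lhs => rw [h1]
      rw [Finset.sum_insert]
      simp
    omega

/-- Existence of the labelling. -/
theorem exists_lab (N : X → Finset Y) (y₀ : Y)
    (hpos : ∀ x, 0 < (N x).card)
    (hconn : ∀ Z : Finset X, Z ≠ univ → ∃ x, x ∉ Z ∧ ∃ y ∈ N x, y ∈ cov N y₀ Z)
    (hcov : cov N y₀ univ = univ)
    (hsum : ∑ x, ((N x).card - 1) + 1 = Fintype.card Y) :
    ∃ (s : Y → ℕ) (u : X → ℕ), Lab N s u ∧ s y₀ = 0 ∧ ∀ y, s y < Fintype.card Y := by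
  classical
  have key : ∀ m : ℕ, m ≤ Fintype.card X → ∃ Z : Finset X, Z.card = m ∧
      (cov N y₀ Z).card = 1 + ∑ x ∈ Z, ((N x).card - 1) ∧
      ∃ (s : Y → ℕ) (u : X → ℕ), s y₀ = 0 ∧
        (∀ x ∈ Z, (N x).card ∣ u x ∧ (∀ y ∈ N x, u x ≤ s y ∧ s y < u x + (N x).card) ∧
          Set.InjOn s (N x : Set Y)) ∧
        ∀ y ∈ cov N y₀ Z, s y ≤ ∑ x ∈ Z, ((N x).card - 1) := by
    intro m
    induction m with
    | zero =>
      intro _
      refine ⟨∅, rfl, ?_, fun _ => 0, fun _ => 0, rfl, ?_, ?_⟩
      · simp [cov]
      · intro x hx; exact absurd hx (Finset.notMem_empty _)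
      · intro y _; exact Nat.zero_le _
    | succ m ih =>
      intro hm
      obtain ⟨Z, hZm, hZc, s, u, hs0, hlab, hbd⟩ := ih (by omega)
      have hZ' : Z ≠ univ := by
        rintro rfl
        rw [Finset.card_univ] at hZm
        omega
      obtain ⟨x, hx, y, hy, hyc⟩ := hconn Z hZ'
      -- exactly one common vertex
      have hlow := card_le_cov N y₀ hconn hcov _ (insert x Z) rfl
      have hsplit : ∑ z, ((N z).card - 1)
          = ∑ z ∈ insert x Z, ((N z).card - 1) + ∑ z ∈ univ \ insert x Z, ((N z).card - 1) := by
        rw [← Finset.sum_sdiff (Finset.subset_univ (insert x Z))]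
        ring
      have hins : ∑ z ∈ insert x Z, ((N z).card - 1)
          = ((N x).card - 1) + ∑ z ∈ Z, ((N z).card - 1) := Finset.sum_insert hx
      have hcovi : (cov N y₀ (insert x Z)).card + (cov N y₀ Z ∩ N x).card
          = (cov N y₀ Z).card + (N x).card := by
        rw [cov_insert]
        exact Finset.card_union_add_card_inter _ _
      have hinter : (cov N y₀ Z ∩ N x).card ≤ 1 := by
        have := hpos x
        omega
      have hyi : y ∈ cov N y₀ Z ∩ N x := Finset.mem_inter.2 ⟨hyc, hy⟩
      have honly : ∀ z ∈ N x, z ∈ cov N y₀ Z → z = y := by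
        intro z hz hzc
        exact Finset.card_le_one.1 hinter z (Finset.mem_inter.2 ⟨hzc, hz⟩) y hyi
      have hinter1 : (cov N y₀ Z ∩ N x).card = 1 := by
        have := Finset.card_pos.2 ⟨y, hyi⟩
        omega
      -- the new block
      set e := (N x).card with he
      have hepos : 0 < e := hpos x
      set U := e * (s y / e) with hU
      have hUle : U ≤ s y := Nat.mul_div_le _ _
      have hUlt : s y < U + e := by
        have := Nat.lt_mul_div_succ (s y) hepos
        rw [hU]
        calc s y < e * (s y / e + 1) := this
          _ = e * (s y / e) + e := by ring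
      have hcards : ((N x).erase y).card = ((Ico U (U + e)).erase (s y)).card := by
        rw [Finset.card_erase_of_mem hy, Finset.card_erase_of_mem (Finset.mem_Ico.2 ⟨hUle, hUlt⟩)]
        simp [he]
      let g : ↥((N x).erase y) ≃ ↥((Ico U (U + e)).erase (s y)) := Finset.equivOfCardEq hcards
      let s' : Y → ℕ := fun z => if h : z ∈ (N x).erase y then ((g ⟨z, h⟩ : _) : ℕ) else s z
      have hs'new : ∀ z (h : z ∈ (N x).erase y), s' z = ((g ⟨z, h⟩ : _) : ℕ) := by
        intro z h
        exact dif_pos h
      have hs'old : ∀ z, z ∉ (N x).erase y → s' z = s z := by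
        intro z h
        exact dif_neg h
      have hs'mem : ∀ z (h : z ∈ (N x).erase y), s' z ∈ (Ico U (U + e)).erase (s y) := by
        intro z h
        rw [hs'new z h]
        exact (g ⟨z, h⟩).2
      have hcovold : ∀ z ∈ cov N y₀ Z, z ∉ (N x).erase y := by
        intro z hz h
        have h1 := Finset.mem_erase.1 h
        exact h1.1 (honly z h1.2 hz)
      have hyold : s' y = s y := hs'old y (by simp)
      refine ⟨insert x Z, ?_, ?_, s', fun z => if z = x then U else u z, ?_, ?_, ?_⟩
      · rw [Finset.card_insert_of_notMem hx, hZm]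
      · omega
      · rw [hs'old y₀ (hcovold y₀ (by simp [cov]))]
        exact hs0
      · intro z hz
        rcases Finset.mem_insert.1 hz with rfl | hzZ
        · simp only [if_true]
          refine ⟨Dvd.intro _ rfl, ?_, ?_⟩
          · intro w hw
            by_cases hwy : w = y
            · subst hwy; rw [hyold]; exact ⟨hUle, hUlt⟩
            · have := Finset.mem_Ico.1 (Finset.mem_of_mem_erase
                (hs'mem w (Finset.mem_erase.2 ⟨hwy, hw⟩)))
              exact this
          · intro a ha b hb hab
            have ha' : a ∈ N z := ha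
            have hb' : b ∈ N z := hb
            by_cases hay : a = y
            · by_cases hby : b = y
              · rw [hay, hby]
              · exfalso
                have h1 := (Finset.mem_erase.1 (hs'mem b (Finset.mem_erase.2 ⟨hby, hb'⟩))).1
                rw [hay, hyold] at hab
                exact h1 hab.symm
            · by_cases hby : b = y
              · exfalso
                have h1 := (Finset.mem_erase.1 (hs'mem a (Finset.mem_erase.2 ⟨hay, ha'⟩))).1
                rw [hby, hyold] at hab
                exact h1 hab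
              · have hae := Finset.mem_erase.2 ⟨hay, ha'⟩
                have hbe := Finset.mem_erase.2 ⟨hby, hb'⟩
                rw [hs'new a hae, hs'new b hbe] at hab
                have h2 := g.injective (Subtype.ext hab)
                exact congrArg Subtype.val h2
        · have hzx : z ≠ x := by rintro rfl; exact hx hzZ
          simp only [if_neg hzx]
          obtain ⟨h1, h2, h3⟩ := hlab z hzZ
          have hold : ∀ w ∈ N z, s' w = s w := by
            intro w hw
            apply hs'old
            apply hcovold
            unfold cov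
            exact Finset.mem_insert_of_mem (Finset.mem_biUnion.2 ⟨z, hzZ, hw⟩)
          refine ⟨h1, ?_, ?_⟩
          · intro w hw
            rw [hold w hw]
            exact h2 w hw
          · intro a ha b hb hab
            rw [hold a ha, hold b hb] at hab
            exact h3 ha hb hab
      · intro z hz
        rw [cov_insert] at hz
        rcases Finset.mem_union.1 hz with h | h
        · rw [hs'old z (hcovold z h), hins]
          exact (hbd z h).trans (Nat.le_add_left _ _)
        · by_cases hzy : z = y
          · subst hzy
            rw [hyold, hins]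
            exact (hbd z hyc).trans (Nat.le_add_left _ _)
          · have h1 := Finset.mem_Ico.1 (Finset.mem_of_mem_erase
              (hs'mem z (Finset.mem_erase.2 ⟨hzy, h⟩)))
            have h2 := hbd y hyc
            rw [hins]
            omega
  obtain ⟨Z, hZm, hZc, s, u, hs0, hlab, hbd⟩ := key (Fintype.card X) le_rfl
  have hZ : Z = univ := by
    apply Finset.eq_univ_of_card
    exact hZm
  subst hZ
  refine ⟨s, u, ⟨fun x => (hlab x (Finset.mem_univ _)).1,
    fun x y hy => ((hlab x (Finset.mem_univ _)).2.1 y hy).1,
    fun x y hy => ((hlab x (Finset.mem_univ _)).2.1 y hy).2,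
    fun x => (hlab x (Finset.mem_univ _)).2.2⟩, hs0, ?_⟩
  intro y
  have h1 := hbd y (by rw [hcov]; exact Finset.mem_univ _)
  omega

end Pool.Agent.H216R3
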