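import Mathlib
import Pool.Agent.H216R3.BalLabel

set_option autoImplicit false

/-!
Cyclic copies with a few displaced vertices: the colouring of the copies.
-/

namespace Pool.Agent.H216R3

open Finset

lemma count_block (R : ℕ → Prop) [DecidablePred R] (c : ℕ) (hc : R c) :
    ∀ m : ℕ, (∀ t, c < t → t ≤ c + m → ¬ R t) →
      Nat.count (fun i => ¬ R i) (c + m + 1) = Nat.count (fun i => ¬ R i) c + m := by
  intro m
  induction m with
  | zero =>
    intro _
    rw [Nat.count_succ]
    simp [hc]
  | succ m ih =>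
    intro h
    rw [Nat.count_succ, show c + (m + 1) = c + m + 1 by ring,
      ih (fun t h1 h2 => h t h1 (by omega))]
    have : ¬ R (c + m + 1) := h _ (by omega) (by omega)
    simp [this]
    ring

lemma colour_window_aux (R : ℕ → Prop) [DecidablePred R] (K e : ℕ)
    (hdiv : e ∣ Nat.count (fun i => ¬ R i) K) (c c' σ σ' : ℕ) (hc' : c' < K)
    (hR : ¬ R c) (hR' : ¬ R c') (hσ : σ < σ' + e) (hσ' : σ' < σ + e) (heK : e ≤ K)
    (hmod : (c + σ) % K = (c' + σ') % K)
    (hcol : Nat.count (fun i => ¬ R i) c % e = Nat.count (fun i => ¬ R i) c' % e)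
    (hlt : c < c') : False := by
  have hK : 0 < K := by omega
  have h1 : Nat.count (fun i => ¬ R i) c + 1 ≤ Nat.count (fun i => ¬ R i) c' :=
    Nat.count_strict_mono (p := fun i => ¬ R i) hR hlt
  have h2 : Nat.count (fun i => ¬ R i) c' + 1 ≤ Nat.count (fun i => ¬ R i) K :=
    Nat.count_strict_mono (p := fun i => ¬ R i) hR' hc'
  have h3 : Nat.count (fun i => ¬ R i) c' ≤ Nat.count (fun i => ¬ R i) c + (c' - c) := by
    obtain ⟨d, rfl⟩ := Nat.exists_eq_add_of_lt hlt
    rw [show c + d + 1 = c + (d + 1) by ring, Nat.count_add]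
    have := Nat.count_le (p := fun k => ¬ R (c + k)) (n := d + 1)
    omega
  have h4 : Nat.count (fun i => ¬ R i) K ≤ Nat.count (fun i => ¬ R i) c' + (K - c') := by
    obtain ⟨d, rfl⟩ := Nat.exists_eq_add_of_lt hc'
    rw [show c' + d + 1 = c' + (d + 1) by ring, Nat.count_add]
    have := Nat.count_le (p := fun k => ¬ R (c' + k)) (n := d + 1)
    omega
  have h5 : Nat.count (fun i => ¬ R i) c ≤ c := Nat.count_le _
  generalize Nat.count (fun i => ¬ R i) c = a at *
  generalize Nat.count (fun i => ¬ R i) c' = b at *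
  generalize Nat.count (fun i => ¬ R i) K = T at *
  -- integers
  have hm : ((K : ℤ)) ∣ ((c' + σ' : ℕ) : ℤ) - ((c + σ : ℕ) : ℤ) :=
    (Nat.modEq_iff_dvd).1 hmod
  have hcolz : ((e : ℤ)) ∣ (b : ℤ) - (a : ℤ) := (Nat.modEq_iff_dvd).1 hcol
  obtain ⟨z, hz⟩ := hm
  push_cast at hz
  have hKz : (0 : ℤ) < K := by exact_mod_cast hK
  have hlo : (-1 : ℤ) < z := by
    by_contra hcon
    have : z ≤ -1 := by omega
    have h5' : (K : ℤ) * z ≤ (K : ℤ) * (-1) := mul_le_mul_of_nonneg_left this hKz.le
    omega
  have hhi : z < 2 := by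
    by_contra hcon
    have : (2 : ℤ) ≤ z := by omega
    have h5' : (K : ℤ) * 2 ≤ (K : ℤ) * z := mul_le_mul_of_nonneg_left this hKz.le
    omega
  have hz01 : z = 0 ∨ z = 1 := by omega
  rcases hz01 with rfl | rfl
  · have h6 : (b : ℤ) - a < e := by omega
    have h7 : (0 : ℤ) < (b : ℤ) - a := by omega
    have := Int.le_of_dvd h7 hcolz
    omega
  · have hT : ((e : ℤ)) ∣ (T : ℤ) := by exact_mod_cast hdiv
    have h8 : ((e : ℤ)) ∣ (T : ℤ) - ((b : ℤ) - a) := dvd_sub hT hcolz
    have h6 : (T : ℤ) - ((b : ℤ) - a) < e := by omega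
    have h7 : (0 : ℤ) < (T : ℤ) - ((b : ℤ) - a) := by omega
    have := Int.le_of_dvd h7 h8
    omega

lemma colour_window (R : ℕ → Prop) [DecidablePred R] (K e : ℕ)
    (hdiv : e ∣ Nat.count (fun i => ¬ R i) K) (c c' σ σ' : ℕ) (hc : c < K) (hc' : c' < K)
    (hR : ¬ R c) (hR' : ¬ R c') (hσ : σ < σ' + e) (hσ' : σ' < σ + e) (heK : e ≤ K)
    (hmod : (c + σ) % K = (c' + σ') % K)
    (hcol : Nat.count (fun i => ¬ R i) c % e = Nat.count (fun i => ¬ R i) c' % e) : c = c' := by
  rcases lt_trichotomy c c' with h | h | h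
  · exact (colour_window_aux R K e hdiv c c' σ σ' hc' hR hR' hσ hσ' heK hmod hcol h).elim
  · exact h
  · exact (colour_window_aux R K e hdiv c' c σ' σ hc hR' hR hσ' hσ heK hmod.symm hcol.symm
      h).elim

/-- The centres: `Γ` has fewer than `|Y|` elements, each with a vertex `τ γ` of degree at least
two, and the number of displaced copies of every type is right modulo the degree. -/
lemma centres {X : Type} [Fintype X] [DecidableEq X] (e u : X → ℕ) (x₁ : X) (hu1 : u x₁ = 0)
    (hpos : ∀ x, 0 < e x) (K : ℕ) :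
    ∃ (r : X → ℕ), (∀ x, r x ≤ e x - 1) ∧
      ∀ x, K ≡ ∑ z ∈ univ.filter (fun z => z = x ∨ (x = x₁ ∧ 0 < u z)), r z [MOD e x] := by
  classical
  set P := ∑ z ∈ univ.filter (fun z => 0 < u z), K % e z with hP
  refine ⟨fun x => if x = x₁ then (K + (e x₁ - 1) * P) % e x₁ else K % e x, ?_, ?_⟩
  · intro x
    by_cases hx : x = x₁
    · subst hx
      simp only [if_true]
      have := Nat.mod_lt (K + (e x - 1) * P) (hpos x)
      omega
    · simp only [if_neg hx]
      have := Nat.mod_lt K (hpos x)
      omega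
  · intro x
    by_cases hx : x = x₁
    · subst hx
      have hset : univ.filter (fun z => z = x ∨ (x = x ∧ 0 < u z))
          = insert x (univ.filter (fun z => 0 < u z)) := by
        ext z
        simp
      have hnot : x ∉ univ.filter (fun z => 0 < u z) := by
        simp [hu1]
      rw [hset, Finset.sum_insert hnot]
      simp only [if_true]
      have hrest : ∑ z ∈ univ.filter (fun z => 0 < u z),
          (if z = x then (K + (e x - 1) * P) % e x else K % e z) = P := by
        rw [hP]
        apply Finset.sum_congr rfl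
        intro z hz
        have : z ≠ x := by
          rintro rfl
          exact hnot hz
        rw [if_neg this]
      rw [hrest]
      have h1 : (K + (e x - 1) * P) % e x + P ≡ (K + (e x - 1) * P) + P [MOD e x] :=
        (Nat.mod_modEq _ _).add_right P
      have h2 : (K + (e x - 1) * P) + P = K + e x * P := by
        have := hpos x
        obtain ⟨d, hd⟩ := Nat.exists_eq_add_of_lt this
        rw [hd]
        simp only [zero_add, Nat.add_sub_cancel]
        ring
      have h3 : K + e x * P ≡ K [MOD e x] := by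
        simp [Nat.ModEq]
      rw [h2] at h1
      exact (h1.trans h3).symm
    · have hset : univ.filter (fun z => z = x ∨ (x = x₁ ∧ 0 < u z)) = {x} := by
        ext z
        simp [hx]
      rw [hset, Finset.sum_singleton]
      simp only [if_neg hx]
      exact (Nat.mod_modEq _ _).symm

end Pool.Agent.H216R3
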