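import Mathlib
import Pool.Agent.H216R3.BalRogue

set_option autoImplicit false
set_option linter.unusedSectionVars false

/-!
The cyclic decomposition in which two vertices on the large side may still coincide.
-/

namespace Pool.Agent.H216R3

open Finset

lemma count_free (R : ℕ → Prop) [DecidablePred R] (c : ℕ) :
    ∀ m : ℕ, (∀ t, c ≤ t → t < c + m → ¬ R t) →
      Nat.count (fun i => ¬ R i) (c + m) = Nat.count (fun i => ¬ R i) c + m := by
  intro m
  induction m with
  | zero => intro _; rfl
  | succ m ih =>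
    intro h
    rw [show c + (m + 1) = c + m + 1 by ring, Nat.count_succ,
      ih (fun t h1 h2 => h t h1 (by omega))]
    have : ¬ R (c + m) := h _ (by omega) (by omega)
    simp [this]
    ring

lemma mod_ne_of_lt (e a b d : ℕ) (hd0 : 0 < d) (hde : d < e) (hab : b = a + d) :
    a % e ≠ b % e := by
  intro h
  have h1 : ((e : ℤ)) ∣ (b : ℤ) - (a : ℤ) := (Nat.modEq_iff_dvd).1 h
  have h2 : (b : ℤ) - a = d := by rw [hab]; push_cast; ring
  rw [h2] at h1
  have := Int.le_of_dvd (by exact_mod_cast hd0) h1
  omega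

section

variable {X Y : Type} [Fintype X] [DecidableEq X] [Fintype Y] [DecidableEq Y]

theorem relaxed (N : X → Finset Y) (s : Y → ℕ) (u : X → ℕ) (n : ℕ) (x₀ x₁ : X) (y₀ : Y)
    (hlab : Lab N s u) (h0 : N x₀ = {y₀}) (h1 : y₀ ∈ N x₁) (h2 : 2 ≤ (N x₁).card)
    (hs0 : s y₀ = 0) (hbd : ∀ y, s y < n) (hcard : ∀ x, (N x).card ≤ n)
    (hpos : ∀ x, 0 < (N x).card)
    (Γ : Type) [Fintype Γ] (τ : Γ → X) (idx : Γ → ℕ) (hidx : Function.Injective idx)
    (K : ℕ) (hK : ∀ γ, 2 * n * idx γ + 3 * n ≤ K) (hnK : n ≤ K)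
    (hτ : ∀ γ, 2 ≤ (N (τ γ)).card)
    (hmod : ∀ x, ∀ S : Finset Γ, (∀ γ, γ ∈ S ↔ (τ γ = x ∨ (x = x₁ ∧ 0 < u (τ γ)))) →
      K ≡ S.card [MOD (N x).card]) :
    ∃ φ : ℕ → X → X × ℕ,
      (∀ c x, (φ c x).2 < (N (φ c x).1).card) ∧
      (∀ c, Function.Injective (φ c)) ∧
      ∀ c c' x x' y y', c < K → c' < K → y ∈ N x → y' ∈ N x' → φ c x = φ c' x' →
        (c + s y) % K = (c' + s y') % K → c = c' ∧ x = x' ∧ y = y' := by
  classical
  have hn : 0 < n := lt_of_lt_of_le (hpos x₁) (hcard x₁)
  have hu1 : u x₁ = 0 := by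
    have := hlab.lo x₁ y₀ h1
    omega
  set e₁ := (N x₁).card with he₁
  have he₁n : e₁ ≤ n := hcard x₁
  let pos : Γ → ℕ := fun γ => 2 * n * idx γ + 2 * n
  let RG : Γ → X → ℕ → Prop := fun γ x c =>
    (τ γ = x ∧ c = pos γ) ∨ (x = x₁ ∧ 0 < u (τ γ) ∧ c + (e₁ - 1) = pos γ)
  let Rog : X → ℕ → Prop := fun x c => ∃ γ, RG γ x c
  -- blocks
  have hblk : ∀ γ x c, RG γ x c → 2 * n * idx γ + n < c ∧ c ≤ 2 * n * idx γ + 2 * n := by
    intro γ x c h
    rcases h with ⟨_, h⟩ | ⟨_, _, h⟩
    · simp only [pos] at h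
      omega
    · simp only [pos] at h
      omega
  have hsame : ∀ γ γ' x x' c c' t, RG γ x c → RG γ' x' c' → c ≤ t → t < c + n → c' ≤ t →
      t < c' + n → γ = γ' := by
    intro γ γ' x x' c c' t h h' a1 a2 a3 a4
    have b1 := hblk γ x c h
    have b2 := hblk γ' x' c' h'
    apply hidx
    rcases lt_trichotomy (idx γ) (idx γ') with hl | hl | hl
    · exfalso
      have : 2 * n * (idx γ + 1) ≤ 2 * n * idx γ' := Nat.mul_le_mul_left _ hl
      have : 2 * n * (idx γ + 1) = 2 * n * idx γ + 2 * n := by ring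
      omega
    · exact hl
    · exfalso
      have : 2 * n * (idx γ' + 1) ≤ 2 * n * idx γ := Nat.mul_le_mul_left _ hl
      have : 2 * n * (idx γ' + 1) = 2 * n * idx γ' + 2 * n := by ring
      omega
  have hsamec : ∀ γ x c c', RG γ x c → RG γ x c' → c = c' := by
    intro γ x c c' h h'
    rcases h with ⟨ha, h⟩ | ⟨hx, hu, h⟩
    · rcases h' with ⟨_, h'⟩ | ⟨hx', hu', h'⟩
      · omega
      · exfalso
        rw [ha, hx', hu1] at hu'
        exact absurd hu' (lt_irrefl _)
    · rcases h' with ⟨ha', h'⟩ | ⟨_, _, h'⟩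
      · exfalso
        rw [ha', hx, hu1] at hu
        exact absurd hu (lt_irrefl _)
      · omega
  have hF : ∀ x c c', Rog x c → Rog x c' → c ≤ c' → c' < c + n → c = c' := by
    rintro x c c' ⟨γ, h⟩ ⟨γ', h'⟩ a1 a2
    have := hsame γ γ' x x c c' c' h h' a1 a2 le_rfl (by omega)
    subst this
    exact hsamec γ x c c' h h'
  have hC : ∀ x x' c c' y y', Rog x c → Rog x' c' → y ∈ N x → y' ∈ N x' →
      c + s y = c' + s y' → x = x' ∧ c = c' ∧ y = y' := by
    rintro x x' c c' y y' ⟨γ, h⟩ ⟨γ', h'⟩ hy hy' he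
    have b1 := hbd y
    have b2 := hbd y'
    have := hsame γ γ' x x' c c' (c + s y) h h' (by omega) (by omega) (by omega) (by omega)
    subst this
    have hxx : x = x' := by
      rcases h with ⟨ha, h⟩ | ⟨hx, hu, h⟩
      · rcases h' with ⟨ha', h'⟩ | ⟨hx', hu', h'⟩
        · rw [← ha, ← ha']
        · exfalso
          have c1 := hlab.lo x y hy
          have c2 := hlab.hi x' y' hy'
          rw [hx', hu1, ← he₁] at c2
          rw [ha] at hu'
          omega
      · rcases h' with ⟨ha', h'⟩ | ⟨hx', hu', h'⟩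
        · exfalso
          have c1 := hlab.lo x' y' hy'
          have c2 := hlab.hi x y hy
          rw [hx, hu1, ← he₁] at c2
          rw [ha'] at hu
          omega
        · rw [hx, hx']
    subst hxx
    have hcc := hsamec γ x c c' h h'
    subst hcc
    refine ⟨rfl, rfl, hlab.inj x hy hy' (by omega)⟩
  have hD : ∀ x x' c, Rog x c → Rog x' c → x = x' := by
    rintro x x' c ⟨γ, h⟩ ⟨γ', h'⟩
    have := hsame γ γ' x x' c c c h h' le_rfl (by omega) le_rfl (by omega)
    subst this
    rcases h with ⟨ha, h⟩ | ⟨hx, hu, h⟩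
    · rcases h' with ⟨ha', h'⟩ | ⟨hx', hu', h'⟩
      · rw [← ha, ← ha']
      · exfalso; omega
    · rcases h' with ⟨ha', h'⟩ | ⟨hx', hu', h'⟩
      · exfalso; omega
      · rw [hx, hx']
  have hE : ∀ x c, Rog x c → ∃ x' c' y', Rog x' c' ∧ y' ∈ N x' ∧ c' + s y' = c := by
    rintro x c ⟨γ, h⟩
    have hself : ∀ z, u z = 0 → ∃ y ∈ N z, s y = 0 := by
      intro z hz
      exact hlab.surj z 0 (by omega) (by have := hpos z; omega)
    rcases h with ⟨ha, h⟩ | ⟨hx, hu, h⟩
    · rcases Nat.eq_zero_or_pos (u x) with hu | hu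
      · obtain ⟨y, hy, hsy⟩ := hself x hu
        exact ⟨x, c, y, ⟨γ, Or.inl ⟨ha, h⟩⟩, hy, by omega⟩
      · obtain ⟨y, hy, hsy⟩ := hlab.surj x₁ (e₁ - 1) (by omega) (by omega)
        refine ⟨x₁, pos γ - (e₁ - 1), y, ⟨γ, Or.inr ⟨rfl, ?_, ?_⟩⟩, hy, ?_⟩
        · rw [ha]; exact hu
        · simp only [pos]; omega
        · rw [hsy, h]; simp only [pos]; omega
    · obtain ⟨y, hy, hsy⟩ := hself x (by rw [hx]; exact hu1)
      exact ⟨x, c, y, ⟨γ, Or.inr ⟨hx, hu, h⟩⟩, hy, by omega⟩
  have hcard2 : ∀ x c, Rog x c → 2 ≤ (N x).card := by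
    rintro x c ⟨γ, h⟩
    rcases h with ⟨ha, h⟩ | ⟨hx, hu, h⟩
    · rw [← ha]; exact hτ γ
    · rw [hx]; exact h2
  have hbig : ∀ x c, Rog x c → n < c ∧ c + n ≤ K := by
    rintro x c ⟨γ, h⟩
    have b1 := hblk γ x c h
    have b2 := hK γ
    constructor
    · have : 0 ≤ 2 * n * idx γ := Nat.zero_le _
      omega
    · omega
  have hx0 : ∀ x c, Rog x c → x ≠ x₀ := by
    intro x c h hx
    have := hcard2 x c h
    rw [hx, h0] at this
    simp at this
  -- the number of displaced copies
  let nu : X → ℕ → ℕ := fun x t => Nat.count (fun i => ¬ Rog x i) t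
  have hG : ∀ x, (N x).card ∣ nu x K := by
    intro x
    let S : Finset Γ := univ.filter (fun γ => τ γ = x ∨ (x = x₁ ∧ 0 < u (τ γ)))
    have hS : ∀ γ, γ ∈ S ↔ (τ γ = x ∨ (x = x₁ ∧ 0 < u (τ γ))) := by
      intro γ; simp [S]
    let pn : Γ → ℕ := fun γ => if τ γ = x then pos γ else pos γ - (e₁ - 1)
    have hpn : ∀ γ ∈ S, RG γ x (pn γ) := by
      intro γ hγ
      by_cases ha : τ γ = x
      · left; exact ⟨ha, by simp [pn, ha]⟩
      · rcases (hS γ).1 hγ with h | ⟨hx, hu⟩
        · exact absurd h ha
        · right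
          refine ⟨hx, hu, ?_⟩
          simp only [pn, if_neg ha, pos]
          omega
    have hset : (range K).filter (fun c => Rog x c) = S.image pn := by
      ext c
      simp only [Finset.mem_filter, Finset.mem_range, Finset.mem_image]
      constructor
      · rintro ⟨hc, γ, h⟩
        have hγ : γ ∈ S := by
          rw [hS]
          rcases h with ⟨ha, _⟩ | ⟨hx, hu, _⟩
          · exact Or.inl ha
          · exact Or.inr ⟨hx, hu⟩
        exact ⟨γ, hγ, hsamec γ x _ _ (hpn γ hγ) h⟩
      · rintro ⟨γ, hγ, rfl⟩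
        have := hbig x (pn γ) ⟨γ, hpn γ hγ⟩
        exact ⟨by omega, γ, hpn γ hγ⟩
    have hinj : Set.InjOn pn (S : Set Γ) := by
      intro γ hγ γ' hγ' he
      have a := hpn γ hγ
      have b := hpn γ' hγ'
      rw [← he] at b
      exact hsame γ γ' x x _ _ _ a b le_rfl (by omega) le_rfl (by omega)
    have hcardS : ((range K).filter (fun c => Rog x c)).card = S.card := by
      rw [hset, Finset.card_image_of_injOn hinj]
    have hsum : nu x K + S.card = K := by
      simp only [nu]
      rw [Nat.count_eq_card_filter_range, ← hcardS]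
      have := Finset.card_filter_add_card_filter_not (s := range K) (p := fun c => Rog x c)
      rw [Finset.card_range] at this
      omega
    have hm := hmod x S hS
    have h3 : S.card ≡ nu x K + S.card [MOD (N x).card] := by
      rw [hsum]; exact hm.symm
    have h4 : 0 + S.card ≡ nu x K + S.card [MOD (N x).card] := by simpa using h3
    have h5 : 0 ≡ nu x K [MOD (N x).card] := Nat.ModEq.add_right_cancel' _ h4
    exact (Nat.modEq_zero_iff_dvd).1 h5.symm
  -- the vertex of the copy on the small side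
  let Hit : ℕ → Prop := fun b => ∃ p : X × ℕ × Y, Rog p.1 p.2.1 ∧ p.2.2 ∈ N p.1 ∧
    p.2.1 + s p.2.2 = b
  let φ : ℕ → X → X × ℕ := fun c x =>
    if x = x₀ then
      if h : Hit c then (h.choose.1, (nu h.choose.1 h.choose.2.1 +
        (s h.choose.2.2 - u h.choose.1)) % (N h.choose.1).card)
      else (x₀, 0)
    else if Rog x c then (x₀, 0) else (x, nu x c % (N x).card)
  have φhit : ∀ x c y, Rog x c → y ∈ N x →
      φ (c + s y) x₀ = (x, (nu x c + (s y - u x)) % (N x).card) := by
    intro x c y hr hy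
    have hh : Hit (c + s y) := ⟨(x, c, y), hr, hy, rfl⟩
    have hsp := hh.choose_spec
    have huq := hC _ _ _ _ _ _ hsp.1 hr hsp.2.1 hy hsp.2.2
    simp only [φ, if_true, dif_pos hh]
    rw [huq.1, huq.2.1, huq.2.2]
  have φno : ∀ c, ¬ Hit c → φ c x₀ = (x₀, 0) := by
    intro c hc
    simp only [φ, if_true, dif_neg hc]
  have φrog : ∀ x c, Rog x c → φ c x = (x₀, 0) := by
    intro x c hr
    simp only [φ, if_neg (hx0 x c hr), if_pos hr]
  have φnon : ∀ x c, x ≠ x₀ → ¬ Rog x c → φ c x = (x, nu x c % (N x).card) := by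
    intro x c hx hr
    simp only [φ, if_neg hx, if_neg hr]
  -- colours of a copy and of the displaced leaf
  have hfive : ∀ x c y, Rog x c → y ∈ N x → ¬ Rog x (c + s y) →
      nu x (c + s y) % (N x).card ≠ (nu x c + (s y - u x)) % (N x).card := by
    intro x c y hr hy hnr
    have hsy : 0 < s y := by
      rcases Nat.eq_zero_or_pos (s y) with h | h
      · rw [h, add_zero] at hnr; exact absurd hr hnr
      · exact h
    have hb := hbd y
    have h2' := hcard2 x c hr
    have hlo := hlab.lo x y hy
    have hcnt : nu x (c + s y) = nu x c + (s y - 1) := by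
      have := count_block (Rog x) c hr (s y - 1) (by
        intro t t1 t2 ht
        have := hF x c t hr ht (by omega) (by omega)
        omega)
      rw [show c + (s y - 1) + 1 = c + s y by omega] at this
      exact this
    rw [hcnt]
    obtain ⟨q, hq⟩ := hlab.dvd x
    rcases Nat.eq_zero_or_pos (u x) with hu | hu
    · rw [hu]
      exact mod_ne_of_lt _ _ _ 1 one_pos h2' (by omega)
    · intro hcon
      have hd : (((N x).card : ℕ) : ℤ) ∣ ((nu x c + (s y - u x) : ℕ) : ℤ)
          - ((nu x c + (s y - 1) : ℕ) : ℤ) := (Nat.modEq_iff_dvd).1 hcon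
      have h6 : ((nu x c + (s y - u x) : ℕ) : ℤ) - ((nu x c + (s y - 1) : ℕ) : ℤ)
          = 1 - (u x : ℤ) := by omega
      rw [h6] at hd
      have h7 : (((N x).card : ℕ) : ℤ) ∣ (u x : ℤ) := by
        exact_mod_cast hlab.dvd x
      have h8 : (((N x).card : ℕ) : ℤ) ∣ 1 := by
        have := dvd_add hd h7
        simpa using this
      have := Int.le_of_dvd one_pos h8
      omega
  have hfour : ∀ x c c₂ y y₂, Rog x c₂ → y₂ ∈ N x → y ∈ N x → ¬ Rog x c → c < K →
      (c + s y) % K = (c₂ + s y₂) % K →
      nu x c % (N x).card ≠ (nu x c₂ + (s y₂ - u x)) % (N x).card := by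
    intro x c c₂ y y₂ hr hy₂ hy hnr hcK hmd
    have hb := hbd y
    have hb₂ := hbd y₂
    have hbg := hbig x c₂ hr
    have l1 := hlab.lo x y hy
    have l2 := hlab.lo x y₂ hy₂
    have u1 := hlab.hi x y hy
    have u2 := hlab.hi x y₂ hy₂
    have hcn := hcard x
    have hlt : (c₂ + s y₂) % K = c₂ + s y₂ := Nat.mod_eq_of_lt (by omega)
    rw [hlt] at hmd
    have heq : c + s y = c₂ + s y₂ := by
      by_cases h : c + s y < K
      · rw [Nat.mod_eq_of_lt h] at hmd; exact hmd
      · exfalso
        have h3 : (c + s y) % K = c + s y - K := by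
          rw [Nat.mod_eq_sub_mod (by omega), Nat.mod_eq_of_lt (by omega)]
        omega
    have hne : c ≠ c₂ := by rintro rfl; exact hnr hr
    rcases lt_or_gt_of_ne hne with hl | hl
    · -- before the displaced copy
      have hcnt : nu x c₂ = nu x c + (c₂ - c) := by
        have := count_free (Rog x) c (c₂ - c) (by
          intro t t1 t2 ht
          have := hF x t c₂ ht hr (by omega) (by omega)
          omega)
        rw [show c + (c₂ - c) = c₂ by omega] at this
        exact this
      rw [hcnt]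
      exact mod_ne_of_lt _ _ _ (s y - u x) (by omega) (by omega) (by omega)
    · have hcnt : nu x c = nu x c₂ + (c - c₂ - 1) := by
        have := count_block (Rog x) c₂ hr (c - c₂ - 1) (by
          intro t t1 t2 ht
          have := hF x c₂ t hr ht (by omega) (by omega)
          omega)
        rw [show c₂ + (c - c₂ - 1) + 1 = c by omega] at this
        exact this
      rw [hcnt]
      exact mod_ne_of_lt _ _ _ (s y - u x + 1) (by omega) (by omega) (by omega)
  -- the bound on colours
  have hcol : ∀ c x, (φ c x).2 < (N (φ c x).1).card := by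
    intro c x
    by_cases hx : x = x₀
    · subst hx
      by_cases hh : Hit c
      · obtain ⟨⟨x', c', y'⟩, hr, hy, rfl⟩ := hh
        rw [φhit x' c' y' hr hy]
        exact Nat.mod_lt _ (hpos x')
      · rw [φno c hh]
        exact hpos x
    · by_cases hr : Rog x c
      · rw [φrog x c hr]
        exact hpos x₀
      · rw [φnon x c hx hr]
        exact Nat.mod_lt _ (hpos x)
  -- comparison of the leaf with the other vertices of a copy
  have hleaf : ∀ c x, x ≠ x₀ → φ c x₀ ≠ φ c x := by
    intro c x hx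
    by_cases hh : Hit c
    · obtain ⟨⟨x', c', y'⟩, hr, hy, rfl⟩ := hh
      simp only at hr hy ⊢
      rw [φhit x' c' y' hr hy]
      by_cases hr2 : Rog x (c' + s y')
      · rw [φrog x _ hr2]
        intro hcon
        exact hx0 x' c' hr (congrArg Prod.fst hcon)
      · rw [φnon x _ hx hr2]
        intro hcon
        have e1 : x' = x := congrArg Prod.fst hcon
        subst e1
        exact hfive x' c' y' hr hy hr2 (congrArg Prod.snd hcon).symm
    · rw [φno c hh]
      by_cases hr2 : Rog x c
      · exfalso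
        obtain ⟨x', c', y', a, b, d⟩ := hE x c hr2
        exact hh ⟨(x', c', y'), a, b, d⟩
      · rw [φnon x _ hx hr2]
        intro hcon
        exact hx (congrArg Prod.fst hcon).symm
  refine ⟨φ, hcol, ?_, ?_⟩
  · intro c x x' hxx
    by_contra hne
    by_cases hx : x = x₀
    · subst hx
      exact hleaf c x' (fun h => hne h.symm) hxx
    · by_cases hx' : x' = x₀
      · subst hx'
        exact hleaf c x hx hxx.symm
      · by_cases hr : Rog x c
        · by_cases hr' : Rog x' c
          · exact hne (hD x x' c hr hr')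
          · rw [φrog x c hr, φnon x' c hx' hr'] at hxx
            exact hx' (congrArg Prod.fst hxx).symm
        · by_cases hr' : Rog x' c
          · rw [φrog x' c hr', φnon x c hx hr] at hxx
            exact hx (congrArg Prod.fst hxx)
          · rw [φnon x c hx hr, φnon x' c hx' hr'] at hxx
            exact hne (congrArg Prod.fst hxx)
  · -- the leaf against another vertex
    have hmix : ∀ c c' x y y', c < K → c' < K → x ≠ x₀ → y ∈ N x → y' ∈ N x₀ →
        φ c x = φ c' x₀ → (c + s y) % K = (c' + s y') % K → False := by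
      intro c c' x y y' hc hc' hx hy hy' hφ hmd
      have hy0 : y' = y₀ := by rw [h0] at hy'; simpa using hy'
      subst hy0
      rw [hs0, add_zero] at hmd
      rw [Nat.mod_eq_of_lt hc'] at hmd
      by_cases hh : Hit c'
      · obtain ⟨⟨x₂, c₂, y₂⟩, hr, hy₂, hc₂⟩ := hh
        simp only at hr hy₂ hc₂
        rw [← hc₂, φhit x₂ c₂ y₂ hr hy₂] at hφ
        by_cases hr2 : Rog x c
        · rw [φrog x c hr2] at hφ
          exact hx0 x₂ c₂ hr (congrArg Prod.fst hφ).symm
        · rw [φnon x c hx hr2] at hφ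
          have e1 : x = x₂ := congrArg Prod.fst hφ
          subst e1
          refine hfour x c c₂ y y₂ hr hy₂ hy hr2 hc ?_ (congrArg Prod.snd hφ)
          rw [hmd, hc₂, Nat.mod_eq_of_lt hc']
      · rw [φno c' hh] at hφ
        by_cases hr2 : Rog x c
        · apply hh
          refine ⟨(x, c, y), hr2, hy, ?_⟩
          have hbg := hbig x c hr2
          have hb := hbd y
          rw [Nat.mod_eq_of_lt (by omega)] at hmd
          exact hmd
        · rw [φnon x c hx hr2] at hφ
          exact hx (congrArg Prod.fst hφ)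
    intro c c' x x' y y' hc hc' hy hy' hφ hmd
    by_cases hx : x = x₀
    · subst hx
      by_cases hx' : x' = x
      · subst hx'
        have e1 : y = y₀ := by rw [h0] at hy; simpa using hy
        have e2 : y' = y₀ := by rw [h0] at hy'; simpa using hy'
        subst e2
        rw [e1, hs0, add_zero, add_zero, Nat.mod_eq_of_lt hc, Nat.mod_eq_of_lt hc'] at hmd
        exact ⟨hmd, rfl, e1⟩
      · exact (hmix c' c x' y' y hc' hc hx' hy' hy hφ.symm hmd.symm).elim
    · by_cases hx' : x' = x₀
      · subst hx'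
        exact (hmix c c' x y y' hc hc' hx hy hy' hφ hmd).elim
      · by_cases hr : Rog x c
        · by_cases hr' : Rog x' c'
          · have b1 := hbig x c hr
            have b2 := hbig x' c' hr'
            have b3 := hbd y
            have b4 := hbd y'
            rw [Nat.mod_eq_of_lt (by omega), Nat.mod_eq_of_lt (by omega)] at hmd
            obtain ⟨a1, a2, a3⟩ := hC x x' c c' y y' hr hr' hy hy' hmd
            exact ⟨a2, a1, a3⟩
          · rw [φrog x c hr, φnon x' c' hx' hr'] at hφ
            exact (hx' (congrArg Prod.fst hφ).symm).elim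
        · by_cases hr' : Rog x' c'
          · rw [φrog x' c' hr', φnon x c hx hr] at hφ
            exact (hx (congrArg Prod.fst hφ)).elim
          · rw [φnon x c hx hr, φnon x' c' hx' hr'] at hφ
            have e1 : x = x' := congrArg Prod.fst hφ
            subst e1
            have l1 := hlab.lo x y hy
            have l2 := hlab.lo x y' hy'
            have u1 := hlab.hi x y hy
            have u2 := hlab.hi x y' hy'
            have hcn := hcard x
            have e2 : c = c' := colour_window (Rog x) K (N x).card (hG x) c c' (s y) (s y')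
              hc hc' hr hr' (by omega) (by omega) (by omega) hmd (congrArg Prod.snd hφ)
            subst e2
            have b3 := hbd y
            have b4 := hbd y'
            have hss : s y = s y' := by
              have hm1 : s y ≡ s y' [MOD K] := Nat.ModEq.add_left_cancel' c hmd
              have hm2 : s y % K = s y' % K := hm1
              rw [Nat.mod_eq_of_lt (by omega), Nat.mod_eq_of_lt (by omega)] at hm2
              exact hm2
            exact ⟨rfl, rfl, hlab.inj x hy hy' hss⟩

end

end Pool.Agent.H216R3
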