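import Mathlib
import Pool.Agent.H216R3.BalRelax

set_option autoImplicit false
set_option linter.unusedSectionVars false

/-!
From the cyclic decomposition to decompositions of complete bipartite graphs.
-/

namespace Pool.Agent.H216R3

open Finset

section

variable {X Y : Type} [Fintype X] [DecidableEq X] [Fintype Y] [DecidableEq Y]

/-- The complete bipartite graph with sides `A`, `B` splits into copies of the bipartite graph
`N`, all with `X` inside `A`. -/
def Pack (N : X → Finset Y) (A B : Type) : Prop :=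
  ∃ (ι : Type) (f : ι → X → A) (g : ι → Y → B),
    (∀ i, Function.Injective (f i)) ∧ (∀ i, Function.Injective (g i)) ∧
    ∀ a b, ∃! p : ι × X × Y, p.2.2 ∈ N p.2.1 ∧ f p.1 p.2.1 = a ∧ g p.1 p.2.2 = b

lemma pack_of_inj (N : X → Finset Y) (A B ι : Type) [Fintype A] [Fintype B] [Fintype ι]
    (f : ι → X → A) (g : ι → Y → B)
    (hf : ∀ i, Function.Injective (f i)) (hg : ∀ i, Function.Injective (g i))
    (hinj : ∀ i i' x x' y y', y ∈ N x → y' ∈ N x' → f i x = f i' x' → g i y = g i' y' →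
      i = i' ∧ x = x' ∧ y = y')
    (hcard : Fintype.card ι * ∑ x, (N x).card = Fintype.card A * Fintype.card B) :
    Pack N A B := by
  classical
  refine ⟨ι, f, g, hf, hg, ?_⟩
  let Tr := ι × (Σ x : X, ↥(N x))
  let F : Tr → A × B := fun p => (f p.1 p.2.1, g p.1 p.2.2.1)
  have hFi : Function.Injective F := by
    rintro ⟨i, x, y, hy⟩ ⟨i', x', y', hy'⟩ h
    simp only [F, Prod.mk.injEq] at h
    obtain ⟨rfl, rfl, rfl⟩ := hinj i i' x x' y y' hy hy' h.1 h.2
    rfl
  have hFc : Fintype.card Tr = Fintype.card (A × B) := by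
    simp only [Tr, Fintype.card_prod, Fintype.card_sigma, Fintype.card_coe]
    exact hcard
  have hFb : Function.Bijective F := (Fintype.bijective_iff_injective_and_card F).2 ⟨hFi, hFc⟩
  intro a b
  obtain ⟨⟨i, x, y, hy⟩, hp⟩ := hFb.2 (a, b)
  simp only [F, Prod.mk.injEq] at hp
  refine ⟨(i, x, y), ⟨hy, hp.1, hp.2⟩, ?_⟩
  rintro ⟨i', x', y'⟩ ⟨h1, h2, h3⟩
  simp only at h1 h2 h3
  obtain ⟨rfl, rfl, rfl⟩ := hinj i' i x' x y' y h1 hy (h2.trans hp.1.symm) (h3.trans hp.2.symm)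
  rfl

lemma Pack.congr {N : X → Finset Y} {A A' B B' : Type} (h : Pack N A B) (eA : A ≃ A')
    (eB : B ≃ B') : Pack N A' B' := by
  obtain ⟨ι, f, g, hf, hg, h⟩ := h
  refine ⟨ι, fun i x => eA (f i x), fun i y => eB (g i y), fun i => eA.injective.comp (hf i),
    fun i => eB.injective.comp (hg i), ?_⟩
  intro a b
  obtain ⟨p, ⟨h1, h2, h3⟩, hu⟩ := h (eA.symm a) (eB.symm b)
  refine ⟨p, ⟨h1, by simp only [h2, Equiv.apply_symm_apply],
    by simp only [h3, Equiv.apply_symm_apply]⟩, ?_⟩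
  rintro q ⟨q1, q2, q3⟩
  apply hu
  refine ⟨q1, ?_, ?_⟩
  · rw [← q2]; simp
  · rw [← q3]; simp

lemma Pack.add {N : X → Finset Y} {A B B' : Type} (h : Pack N A B) (h' : Pack N A B') :
    Pack N A (B ⊕ B') := by
  obtain ⟨ι, f, g, hf, hg, h⟩ := h
  obtain ⟨ι', f', g', hf', hg', h'⟩ := h'
  refine ⟨ι ⊕ ι', Sum.elim f f', Sum.elim (fun i y => Sum.inl (g i y))
    (fun i y => Sum.inr (g' i y)), ?_, ?_, ?_⟩
  · rintro (i | i)
    · exact hf i
    · exact hf' i
  · rintro (i | i)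
    · exact Sum.inl_injective.comp (hg i)
    · exact Sum.inr_injective.comp (hg' i)
  · rintro a (b | b)
    · obtain ⟨⟨i, x, y⟩, ⟨h1, h2, h3⟩, hu⟩ := h a b
      refine ⟨(Sum.inl i, x, y), ⟨h1, h2, by simpa using h3⟩, ?_⟩
      rintro ⟨j | j, x', y'⟩ ⟨q1, q2, q3⟩
      · simp only [Sum.elim_inl, Sum.inl.injEq] at q1 q2 q3
        have := hu (j, x', y') ⟨q1, q2, q3⟩
        simp only [Prod.mk.injEq] at this
        obtain ⟨rfl, rfl, rfl⟩ := this
        rfl
      · simp at q3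
    · obtain ⟨⟨i, x, y⟩, ⟨h1, h2, h3⟩, hu⟩ := h' a b
      refine ⟨(Sum.inr i, x, y), ⟨h1, h2, by simpa using h3⟩, ?_⟩
      rintro ⟨j | j, x', y'⟩ ⟨q1, q2, q3⟩
      · simp at q3
      · simp only [Sum.elim_inr, Sum.inr.injEq] at q1 q2 q3
        have := hu (j, x', y') ⟨q1, q2, q3⟩
        simp only [Prod.mk.injEq] at this
        obtain ⟨rfl, rfl, rfl⟩ := this
        rfl

/-- Products `K * M` with `K` large and `M ≥ |Y|`. -/
theorem pack_mul (N : X → Finset Y) (x₀ x₁ : X) (y₀ : Y)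
    (hpos : ∀ x, 0 < (N x).card)
    (hconn : ∀ Z : Finset X, Z ≠ univ → ∃ x, x ∉ Z ∧ ∃ y ∈ N x, y ∈ cov N y₀ Z)
    (hcov : cov N y₀ univ = univ)
    (hsum : ∑ x, ((N x).card - 1) + 1 = Fintype.card Y)
    (h0 : N x₀ = {y₀}) (h1 : y₀ ∈ N x₁) (h2 : 2 ≤ (N x₁).card)
    (K M : ℕ) (hK : 2 * Fintype.card Y ^ 2 ≤ K + Fintype.card Y) (hM : Fintype.card Y ≤ M) :
    Pack N (Fin (∑ x, (N x).card)) (Fin (K * M)) := by
  classical
  set n := Fintype.card Y with hn
  have hcard : ∀ x, (N x).card ≤ n := fun x => Finset.card_le_univ _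
  have hn2 : 2 ≤ n := h2.trans (hcard x₁)
  have hnK : n ≤ K := by nlinarith
  obtain ⟨s, u, hlab, hs0, hbd⟩ := exists_lab N y₀ hpos hconn hcov hsum
  have hu1 : u x₁ = 0 := by
    have := hlab.lo x₁ y₀ h1
    omega
  obtain ⟨r, hr, hrmod⟩ := centres (fun x => (N x).card) u x₁ hu1 hpos K
  have hΓ : Fintype.card (Σ x : X, Fin (r x)) + 1 ≤ n := by
    rw [Fintype.card_sigma]
    simp only [Fintype.card_fin]
    rw [← hsum]
    exact Nat.add_le_add_right (Finset.sum_le_sum fun x _ => hr x) 1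
  obtain ⟨φ, hφ1, hφ2, hφ3⟩ := relaxed N s u n x₀ x₁ y₀ hlab h0 h1 h2 hs0 hbd hcard hpos
    (Σ x : X, Fin (r x)) Sigma.fst (fun γ => (Fintype.equivFin _ γ : ℕ))
    (fun γ γ' h => (Fintype.equivFin _).injective (Fin.ext h)) K
    (by
      intro γ
      have hlt := (Fintype.equivFin (Σ x : X, Fin (r x)) γ).2
      set i : ℕ := (Fintype.equivFin (Σ x : X, Fin (r x)) γ : ℕ) with hi
      have hi2 : i + 2 ≤ n := by omega
      have h3 : 2 * n * (i + 2) ≤ 2 * n * n := Nat.mul_le_mul_left _ hi2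
      have h4 : 2 * n * (i + 2) = 2 * n * i + 4 * n := by ring
      have h5 : 2 * n * n = 2 * n ^ 2 := by ring
      omega)
    hnK
    (by
      rintro ⟨x, j⟩
      have h3 := j.2
      have h4 := hr x
      simp only
      omega)
    (by
      intro x S hS
      have hSs : S = (univ.filter (fun z => z = x ∨ (x = x₁ ∧ 0 < u z))).sigma
          (fun z => (univ : Finset (Fin (r z)))) := by
        ext γ
        rw [hS γ]
        simp
      rw [hSs, Finset.card_sigma]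
      simp only [Finset.card_univ, Fintype.card_fin]
      exact hrmod x)
  have hKpos : 0 < K := by omega
  have hMpos : 0 < M := by omega
  let t : Y → ℕ := fun y => (Fintype.equivFin Y y : ℕ)
  have ht : ∀ y, t y < M := fun y => lt_of_lt_of_le (Fintype.equivFin Y y).2 hM
  have htinj : Function.Injective t := fun y y' h => (Fintype.equivFin Y).injective (Fin.ext h)
  have hmodcancel : ∀ a b c L : ℕ, b < L → c < L → (a + b) % L = (a + c) % L → b = c := by
    intro a b c L hb hc h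
    have h3 : b ≡ c [MOD L] := Nat.ModEq.add_left_cancel' a h
    have h4 : b % L = c % L := h3
    rwa [Nat.mod_eq_of_lt hb, Nat.mod_eq_of_lt hc] at h4
  have hbase : Pack N (Σ x : X, Fin (N x).card) (Fin K × Fin M) := by
    refine pack_of_inj N _ _ (Fin K × Fin M)
      (fun c x => ⟨(φ c.1 x).1, ⟨(φ c.1 x).2, hφ1 c.1 x⟩⟩)
      (fun c y => (⟨(c.1 + s y) % K, Nat.mod_lt _ hKpos⟩, ⟨(c.2 + t y) % M, Nat.mod_lt _ hMpos⟩))
      ?_ ?_ ?_ ?_
    · intro c x x' h
      apply hφ2 c.1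
      exact congrArg (fun p : (Σ x : X, Fin (N x).card) => ((p.1, (p.2 : ℕ)) : X × ℕ)) h
    · intro c y y' h
      simp only [Prod.mk.injEq, Fin.mk.injEq] at h
      exact htinj (hmodcancel _ _ _ _ (ht y) (ht y') h.2)
    · intro c c' x x' y y' hy hy' hf hg
      simp only [Prod.mk.injEq, Fin.mk.injEq] at hg
      have h3 : φ c.1 x = φ c'.1 x' :=
        congrArg (fun p : (Σ x : X, Fin (N x).card) => ((p.1, (p.2 : ℕ)) : X × ℕ)) hf
      obtain ⟨a1, a2, a3⟩ := hφ3 c.1 c'.1 x x' y y' c.1.2 c'.1.2 hy hy' h3 hg.1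
      subst a3
      refine ⟨Prod.ext (Fin.ext a1) (Fin.ext ?_), a2, rfl⟩
      have h5 := hg.2
      rw [Nat.add_comm _ (t y), Nat.add_comm _ (t y)] at h5
      exact hmodcancel _ _ _ _ c.2.2 c'.2.2 h5
    · simp only [Fintype.card_prod, Fintype.card_fin, Fintype.card_sigma]
      ring
  refine hbase.congr ?_ ?_
  · exact (Fintype.equivFinOfCardEq (by simp only [Fintype.card_sigma, Fintype.card_fin]))
  · exact (Fintype.equivFinOfCardEq (by simp only [Fintype.card_prod, Fintype.card_fin]))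

/-- Every large `k`. -/
theorem pack_large (N : X → Finset Y) (x₀ x₁ : X) (y₀ : Y)
    (hpos : ∀ x, 0 < (N x).card)
    (hconn : ∀ Z : Finset X, Z ≠ univ → ∃ x, x ∉ Z ∧ ∃ y ∈ N x, y ∈ cov N y₀ Z)
    (hcov : cov N y₀ univ = univ)
    (hsum : ∑ x, ((N x).card - 1) + 1 = Fintype.card Y)
    (h0 : N x₀ = {y₀}) (h1 : y₀ ∈ N x₁) (h2 : 2 ≤ (N x₁).card)
    (k : ℕ) (hk : 4 * Fintype.card Y ^ 3 + Fintype.card Y ^ 2 ≤ k) :
    Pack N (Fin (∑ x, (N x).card)) (Fin k) := by
  set n := Fintype.card Y with hn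
  have hcard : ∀ x, (N x).card ≤ n := fun x => Finset.card_le_univ _
  have hn2 : 2 ≤ n := h2.trans (hcard x₁)
  -- `k = a n + b (n + 1)` with `a`, `b` large
  have hK0 : ∃ K0, K0 + n = 2 * n ^ 2 := ⟨2 * n ^ 2 - n, by
    have : n ≤ 2 * n ^ 2 := by nlinarith
    omega⟩
  obtain ⟨K0, hK0⟩ := hK0
  have hk2 : K0 * (2 * n + 1) + n * n ≤ k := by
    have e1 : (K0 + n) * (2 * n + 1) = 2 * n ^ 2 * (2 * n + 1) := by rw [hK0]
    have e2 : (K0 + n) * (2 * n + 1) = K0 * (2 * n + 1) + n * (2 * n + 1) := by ring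
    have e3 : 2 * n ^ 2 * (2 * n + 1) = 4 * n ^ 3 + 2 * n ^ 2 := by ring
    have e4 : n * (2 * n + 1) = 2 * n ^ 2 + n := by ring
    have e5 : n * n = n ^ 2 := by ring
    omega
  obtain ⟨k', hk'⟩ := Nat.exists_eq_add_of_le hk2
  -- the rest is at least `n * n`
  set R := n * n + k' with hR
  have hkR : k = K0 * (2 * n + 1) + R := by rw [hk', hR]; ring
  have hq : n ≤ R / n := by
    rw [Nat.le_div_iff_mul_le (by omega)]
    rw [hR]; exact Nat.le_add_right _ _
  have hrn : R % n < n := Nat.mod_lt _ (by omega)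
  have hdm := Nat.div_add_mod R n
  obtain ⟨d, hd⟩ := Nat.exists_eq_add_of_le (show R % n ≤ R / n by omega)
  have hsplit : k = (K0 + d) * n + (K0 + R % n) * (n + 1) := by
    rw [hkR]
    have : R = (R % n + d) * n + R % n := by
      rw [← hd]
      calc R = n * (R / n) + R % n := hdm.symm
        _ = R / n * n + R % n := by ring
    calc K0 * (2 * n + 1) + R = K0 * (2 * n + 1) + ((R % n + d) * n + R % n) := by rw [← this]
      _ = _ := by ring
  have hA := pack_mul N x₀ x₁ y₀ hpos hconn hcov hsum h0 h1 h2 (K0 + d) n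
    (by rw [← hn]; omega) le_rfl
  have hB := pack_mul N x₀ x₁ y₀ hpos hconn hcov hsum h0 h1 h2 (K0 + R % n) (n + 1)
    (by rw [← hn]; omega) (by omega)
  refine (hA.add hB).congr (Equiv.refl _) ?_
  rw [hsplit]
  exact finSumFinEquiv

end

end Pool.Agent.H216R3
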