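import Mathlib
import Pool.Agent.H216R3.BalDefs
import Pool.Agent.H216R3.BalPack

set_option autoImplicit false
set_option linter.unusedSectionVars false

/-!
Balanced trees decompose `K_{2n-1,k}` for all large `k`.
-/

namespace Pool.Agent.H216R3

open Finset SimpleGraph

/-- A nonempty vertex set closed under adjacency is everything. -/
lemma closed_univ {V : Type} (T : SimpleGraph V) (hT : T.Connected) (P : V → Prop) (v₀ : V)
    (h0 : P v₀) (hcl : ∀ v w, T.Adj v w → P v → P w) : ∀ v, P v := by
  intro v
  obtain ⟨p⟩ := hT.preconnected v₀ v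
  induction p with
  | nil => exact h0
  | cons h _ ih => exact ih (hcl _ _ h h0)

section

variable {V : Type} (T : SimpleGraph V) (c : T.Coloring Bool)

/-- The first colour class. -/
abbrev CX : Type := {v : V // c v = true}

/-- The second colour class. -/
abbrev CY : Type := {v : V // c v = false}

/-- The assembly: from a `Pack` of the bipartite graph of `T` to a decomposition. -/
theorem decomposes_of_pack [Fintype V] [DecidableEq V]
    (N : CX T c → Finset (CY T c)) (hN : ∀ x y, y ∈ N x ↔ T.Adj x.1 y.1)
    (A B : Type) (h : Pack N A B) : Decomposes T (completeBipartiteGraph A B) := by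
  classical
  obtain ⟨ι, f, g, hf, hg, h⟩ := h
  let m : ι → V → A ⊕ B := fun i v =>
    if hv : c v = true then Sum.inl (f i ⟨v, hv⟩)
    else Sum.inr (g i ⟨v, by simpa using hv⟩)
  have hmX : ∀ i (x : CX T c), m i x.1 = Sum.inl (f i x) := by
    intro i x
    simp only [m, dif_pos x.2]
  have hmY : ∀ i (y : CY T c), m i y.1 = Sum.inr (g i y) := by
    intro i y
    have : ¬ (c y.1 = true) := by rw [y.2]; simp
    simp only [m, dif_neg this]
  have hcase : ∀ v, (∃ x : CX T c, x.1 = v) ∨ (∃ y : CY T c, y.1 = v) := by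
    intro v
    by_cases hv : c v = true
    · exact Or.inl ⟨⟨v, hv⟩, rfl⟩
    · exact Or.inr ⟨⟨v, by simpa using hv⟩, rfl⟩
  have hminj : ∀ i, Function.Injective (m i) := by
    intro i v w hvw
    rcases hcase v with ⟨x, rfl⟩ | ⟨y, rfl⟩
    · rcases hcase w with ⟨x', rfl⟩ | ⟨y', rfl⟩
      · rw [hmX, hmX] at hvw
        rw [hf i (Sum.inl_injective hvw)]
      · rw [hmX, hmY] at hvw
        exact absurd hvw (by simp)
    · rcases hcase w with ⟨x', rfl⟩ | ⟨y', rfl⟩
      · rw [hmX, hmY] at hvw
        exact absurd hvw (by simp)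
      · rw [hmY, hmY] at hvw
        rw [hg i (Sum.inr_injective hvw)]
  have hmadj : ∀ i v w, T.Adj v w → (completeBipartiteGraph A B).Adj (m i v) (m i w) := by
    intro i v w hvw
    have hne := c.valid hvw
    rcases hcase v with ⟨x, rfl⟩ | ⟨y, rfl⟩
    · rcases hcase w with ⟨x', rfl⟩ | ⟨y', rfl⟩
      · exact absurd (x.2.trans x'.2.symm) hne
      · rw [hmX, hmY]; simp [completeBipartiteGraph]
    · rcases hcase w with ⟨x', rfl⟩ | ⟨y', rfl⟩
      · rw [hmX, hmY]; simp [completeBipartiteGraph]
      · exact absurd (y.2.trans y'.2.symm) hne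
  let C : ι → Copy T (completeBipartiteGraph A B) := fun i =>
    ⟨⟨m i, fun {v w} h => hmadj i v w h⟩, hminj i⟩
  have hCadj : ∀ i a b, (C i).toSubgraph.Adj a b ↔ ∃ v w, T.Adj v w ∧ m i v = a ∧ m i w = b := by
    intro i a b
    simp only [Copy.toSubgraph, Subgraph.map_adj, Relation.Map, Subgraph.top_adj]
    rfl
  refine ⟨Set.range fun i => (C i).toSubgraph, ?_, ?_⟩
  · rintro _ ⟨i, rfl⟩
    exact ⟨(C i).isoToSubgraph⟩
  · -- one orientation of an edge suffices
    have key : ∀ a b, ∃! D : (completeBipartiteGraph A B).Subgraph,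
        D ∈ (Set.range fun i => (C i).toSubgraph) ∧ D.Adj (Sum.inl a) (Sum.inr b) := by
      intro a b
      obtain ⟨⟨i, x, y⟩, ⟨h1, h2, h3⟩, hu⟩ := h a b
      refine ⟨(C i).toSubgraph, ⟨⟨i, rfl⟩, ?_⟩, ?_⟩
      · rw [hCadj]
        refine ⟨x.1, y.1, (hN x y).1 h1, ?_, ?_⟩
        · rw [hmX]; exact congrArg Sum.inl h2
        · rw [hmY]; exact congrArg Sum.inr h3
      · rintro D ⟨⟨j, rfl⟩, hD⟩
        simp only at hD ⊢
        rw [hCadj] at hD
        obtain ⟨v, w, hvw, hv, hw⟩ := hD
        rcases hcase v with ⟨x', rfl⟩ | ⟨y', rfl⟩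
        · rcases hcase w with ⟨x'', rfl⟩ | ⟨y'', rfl⟩
          · rw [hmX] at hw
            exact absurd hw (by simp)
          · rw [hmX] at hv
            rw [hmY] at hw
            have := hu (j, x', y'') ⟨(hN x' y'').2 hvw, Sum.inl_injective hv, Sum.inr_injective hw⟩
            simp only [Prod.mk.injEq] at this
            rw [this.1]
        · rw [hmY] at hv
          exact absurd hv (by simp)
    intro e he
    induction e using Sym2.ind with
    | _ p q =>
      rw [SimpleGraph.mem_edgeSet] at he
      rcases p with a | b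
      · rcases q with a' | b'
        · simp [completeBipartiteGraph] at he
        · simpa only [Subgraph.mem_edgeSet] using key a b'
      · rcases q with a' | b'
        · have := key a' b
          simp only [Subgraph.mem_edgeSet]
          obtain ⟨D, ⟨h1, h2⟩, h3⟩ := this
          exact ⟨D, ⟨h1, h2.symm⟩, fun D' hD' => h3 D' ⟨hD'.1, hD'.2.symm⟩⟩
        · simp [completeBipartiteGraph] at he

end

/-- All large `k` belong to `S n`. -/
theorem mem_S_of_large (n : ℕ) (hn : 1 ≤ n) (k : ℕ) (hk : 4 * n ^ 3 + n ^ 2 ≤ k) : k ∈ S n := by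
  classical
  refine ⟨by nlinarith [Nat.pow_le_pow_left hn 3], ?_⟩
  rintro V T ⟨hT, c, hc1, hc2⟩
  -- finiteness
  have hfin1 : {v | c v = true}.Finite := Set.finite_of_ncard_pos (by omega)
  have hfin2 : {v | c v = false}.Finite := Set.finite_of_ncard_pos (by omega)
  have hfin : Finite V := by
    have : (Set.univ : Set V).Finite := by
      apply (hfin1.union hfin2).subset
      intro v _
      by_cases hv : c v = true
      · exact Or.inl hv
      · exact Or.inr (by simpa using hv)
    exact Set.finite_univ_iff.1 this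
  haveI : Fintype V := Fintype.ofFinite V
  have hcardX : Fintype.card (CX T c) = n := by
    rw [← hc1, Set.ncard_eq_toFinset_card', Fintype.card_subtype]
    congr 1
    ext v; simp
  have hcardY : Fintype.card (CY T c) = n := by
    rw [← hc2, Set.ncard_eq_toFinset_card', Fintype.card_subtype]
    congr 1
    ext v; simp
  let N : CX T c → Finset (CY T c) := fun x => univ.filter (fun y => T.Adj x.1 y.1)
  have hN : ∀ x y, y ∈ N x ↔ T.Adj x.1 y.1 := by
    intro x y; simp [N]
  -- the number of edges
  have hcardV : Fintype.card V = 2 * n := by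
    have e1 : Fintype.card V = (univ.filter (fun v => c v = true)).card
        + (univ.filter (fun v => ¬ c v = true)).card := by
      rw [Finset.card_filter_add_card_filter_not]; rfl
    rw [Fintype.card_subtype] at hcardX hcardY
    rw [e1, hcardX]
    have : univ.filter (fun v => ¬ c v = true) = univ.filter (fun v => c v = false) := by
      ext v; simp
    rw [this, hcardY]
    ring
  have hedges : T.edgeFinset.card + 1 = 2 * n := by
    rw [hT.card_edgeFinset, hcardV]
  have hbip : T.IsBipartiteWith ((univ.filter (fun v => c v = true) : Finset V) : Set V)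
      ((univ.filter (fun v => c v = false) : Finset V) : Set V) := by
    refine ⟨?_, ?_⟩
    · rw [Finset.disjoint_coe, Finset.disjoint_left]
      intro v hv hv'
      simp only [Finset.mem_filter, Finset.mem_univ, true_and] at hv hv'
      rw [hv] at hv'
      exact absurd hv' (by simp)
    · intro v w hvw
      have := c.valid hvw
      simp only [Finset.coe_filter, Finset.mem_univ, true_and, Set.mem_setOf_eq]
      cases h1 : c v <;> cases h2 : c w <;> simp_all
  have hdeg : ∀ x : CX T c, (N x).card = T.degree x.1 := by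
    intro x
    rw [← SimpleGraph.card_neighborFinset_eq_degree]
    refine Finset.card_bij (fun y _ => y.1) ?_ ?_ ?_
    · intro y hy
      rw [SimpleGraph.mem_neighborFinset]
      exact (hN x y).1 hy
    · intro a _ b _ hab
      exact Subtype.ext hab
    · intro v hv
      rw [SimpleGraph.mem_neighborFinset] at hv
      have hcv : c v = false := by
        have := c.valid hv
        rw [x.2] at this
        cases h : c v
        · rfl
        · exact absurd h.symm this
      exact ⟨⟨v, hcv⟩, (hN x ⟨v, hcv⟩).2 hv, rfl⟩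
  have hsumdeg : ∑ x, (N x).card = 2 * n - 1 := by
    have e1 := SimpleGraph.isBipartiteWith_sum_degrees_eq_card_edges hbip
    have e2 : ∑ x : CX T c, (N x).card = ∑ v ∈ univ.filter (fun v => c v = true), T.degree v := by
      rw [Finset.sum_congr rfl (fun x _ => hdeg x)]
      exact (Finset.sum_subtype (univ.filter (fun v => c v = true)) (by simp)
        (fun v => T.degree v)).symm
    rw [e2, e1]
    omega
  have hconnT := hT.connected
  -- every vertex has a neighbour
  have hnb : ∀ v : V, ∃ w, T.Adj v w := by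
    intro v
    haveI : Nontrivial V := Fintype.one_lt_card_iff_nontrivial.1 (by omega)
    have := hconnT.preconnected.degree_pos_of_nontrivial v
    obtain ⟨w, hw⟩ := (T.degree_pos_iff_exists_adj v).1 this
    exact ⟨w, hw⟩
  have hcolY : ∀ (x : CX T c) w, T.Adj x.1 w → c w = false := by
    intro x w hw
    have := c.valid hw
    rw [x.2] at this
    cases h : c w
    · rfl
    · exact absurd h.symm this
  have hcolX : ∀ (y : CY T c) w, T.Adj y.1 w → c w = true := by
    intro y w hw
    have := c.valid hw
    rw [y.2] at this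
    cases h : c w
    · exact absurd h.symm this
    · rfl
  have hpos : ∀ x, 0 < (N x).card := by
    intro x
    obtain ⟨w, hw⟩ := hnb x.1
    exact Finset.card_pos.2 ⟨⟨w, hcolY x w hw⟩, (hN _ _).2 hw⟩
  have hsum : ∑ x, ((N x).card - 1) + 1 = Fintype.card (CY T c) := by
    have e1 : ∑ x, ((N x).card - 1) + ∑ _x : CX T c, 1 = ∑ x, (N x).card := by
      rw [← Finset.sum_add_distrib]
      apply Finset.sum_congr rfl
      intro x _
      have := hpos x
      omega
    rw [Finset.sum_const, Finset.card_univ, hcardX, smul_eq_mul, mul_one] at e1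
    omega
  -- a leaf
  have hleaf : ∃ x₀, (N x₀).card = 1 := by
    by_contra hcon
    push_neg at hcon
    have h2 : ∀ x, 2 ≤ (N x).card := by
      intro x
      have h3 := hpos x
      have h4 := hcon x
      omega
    have h3 : ∑ _x : CX T c, 2 ≤ ∑ x, (N x).card := Finset.sum_le_sum fun x _ => h2 x
    rw [Finset.sum_const, Finset.card_univ, hcardX, smul_eq_mul] at h3
    omega
  obtain ⟨x₀, hx₀⟩ := hleaf
  obtain ⟨y₀, hy₀⟩ := Finset.card_eq_one.1 hx₀
  have hconn : ∀ Z : Finset (CX T c), Z ≠ univ →
      ∃ x, x ∉ Z ∧ ∃ y ∈ N x, y ∈ cov N y₀ Z := by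
    intro Z hZ
    by_contra hcon
    push_neg at hcon
    have hall := closed_univ T hconnT
      (fun v => (∃ x ∈ Z, x.1 = v) ∨ (∃ y ∈ cov N y₀ Z, y.1 = v)) y₀.1
      (Or.inr ⟨y₀, by simp [cov], rfl⟩) (by
        rintro v w hvw (⟨x, hx, rfl⟩ | ⟨y, hy, rfl⟩)
        · right
          refine ⟨⟨w, hcolY x w hvw⟩, ?_, rfl⟩
          unfold cov
          exact Finset.mem_insert_of_mem (Finset.mem_biUnion.2 ⟨x, hx, (hN _ _).2 hvw⟩)
        · left
          refine ⟨⟨w, hcolX y w hvw⟩, ?_, rfl⟩
          by_contra hw
          exact hcon ⟨w, hcolX y w hvw⟩ hw y ((hN _ _).2 hvw.symm) hy)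
    apply hZ
    apply Finset.eq_univ_of_forall
    intro x
    rcases hall x.1 with ⟨x', hx', h⟩ | ⟨y, _, h⟩
    · rwa [Subtype.ext h] at hx'
    · exfalso
      have h3 := y.2
      rw [h, x.2] at h3
      exact absurd h3 (by simp)
  have hcov : cov N y₀ univ = univ := by
    apply Finset.eq_univ_of_forall
    intro y
    obtain ⟨w, hw⟩ := hnb y.1
    unfold cov
    exact Finset.mem_insert_of_mem (Finset.mem_biUnion.2
      ⟨⟨w, hcolX y w hw⟩, Finset.mem_univ _, (hN _ _).2 hw.symm⟩)
  apply decomposes_of_pack T c N hN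
  rw [← hsumdeg]
  rcases Nat.lt_or_ge 1 n with hn1 | hn1
  · -- a neighbour of `y₀` of degree at least two
    have hx₁ : ∃ x₁, y₀ ∈ N x₁ ∧ 2 ≤ (N x₁).card := by
      by_contra hcon
      push_neg at hcon
      have hall := closed_univ T hconnT
        (fun v => v = y₀.1 ∨ (∃ x : CX T c, y₀ ∈ N x ∧ x.1 = v)) y₀.1 (Or.inl rfl) (by
          rintro v w hvw (rfl | ⟨x, hx, rfl⟩)
          · right
            exact ⟨⟨w, hcolX y₀ w hvw⟩, (hN _ _).2 hvw.symm, rfl⟩
          · left
            have h3 := hcon x hx
            have h4 : (⟨w, hcolY x w hvw⟩ : CY T c) ∈ N x := (hN _ _).2 hvw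
            have h5 := Finset.card_le_one.1 (by omega : (N x).card ≤ 1) _ h4 _ hx
            exact congrArg Subtype.val h5)
      have hsub : ∀ y : CY T c, y = y₀ := by
        intro y
        rcases hall y.1 with h | ⟨x, _, h⟩
        · exact Subtype.ext h
        · exfalso
          have h3 := y.2
          rw [← h, x.2] at h3
          exact absurd h3 (by simp)
      have : Fintype.card (CY T c) ≤ 1 :=
        Fintype.card_le_one_iff.2 fun a b => (hsub a).trans (hsub b).symm
      omega
    obtain ⟨x₁, h1, h2⟩ := hx₁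
    exact pack_large N x₀ x₁ y₀ hpos hconn hcov hsum hy₀ h1 h2 k (by rw [hcardY]; exact hk)
  · -- the single edge
    have hn1' : n = 1 := by omega
    subst hn1'
    haveI : Subsingleton (CX T c) := Fintype.card_le_one_iff_subsingleton.1 (by omega)
    haveI : Subsingleton (CY T c) := Fintype.card_le_one_iff_subsingleton.1 (by omega)
    have hs1 : ∑ x, (N x).card = 1 := by omega
    refine pack_of_inj N _ _ (Fin k) (fun _ _ => ⟨0, by omega⟩) (fun i _ => i) ?_ ?_ ?_ ?_
    · intro i a b _
      exact Subsingleton.elim _ _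
    · intro i a b _
      exact Subsingleton.elim _ _
    · intro i i' x x' y y' _ _ _ h
      exact ⟨h, Subsingleton.elim _ _, Subsingleton.elim _ _⟩
    · simp only [Fintype.card_fin]
      rw [hs1]; ring

end Pool.Agent.H216R3
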