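import Pool.Agent.H216R3.StAgl

/-!
Steiner systems with blocks of size `8` from difference families over `AGL(1,8) × 𝔽_q`.
-/

namespace Pool.Agent.H216R3.StGrp

open Pool.Agent.H816R2.KM2

def b1 : List ℕ := [0, 0, 26, 27, 38, 41, 45, 47]

def b2 : List ℕ := [0, 1, 2, 4, 11, 16, 28, 50]

def f624 : List (List ℕ) :=
  scaled 89 (pows 89 64 11) [0, 0, 3, 3, 6, 6, 5, 5] [0, 1, 3, 36, 22, 53, 65, 85]

theorem s624 : ∃ 𝓑 : Set (Finset (Fin 624)), IsS2 (Fin 624) 8 𝓑 :=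
  main (ofCoded (codedZ 7)) (codedZ 89) 8 1 624 (by decide) f624 [[0, 1, 2, 3, 4, 5, 6, 7]] []
    (by decide +kernel) (by decide +kernel) (by decide +kernel) (by decide +kernel)
    (coverB_spec (by decide +kernel)) (by decide +kernel)

/-- base blocks over `AGL(1,8) × 𝔽_19` -/
def f19 : List (List ℕ) :=
  scaled 19 (pows 19 4 9) b1 [0, 9, 15, 10, 18, 13, 5, 14] ++
  scaled 19 (pows 19 4 9) b2 [0, 7, 2, 11, 4, 18, 12, 16]

theorem s1065 : ∃ 𝓑 : Set (Finset (Fin 1065)), IsS2 (Fin 1065) 8 𝓑 :=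
  main agl (codedZ 19) 8 1 1065 (by decide) f19 pg7 [] (by decide +kernel) pg7_ok (by decide +kernel)
    (by decide +kernel) (coverB_spec pg7_cover) (by decide +kernel)

/-- base blocks over `AGL(1,8) × 𝔽_23` -/
def f23 : List (List ℕ) :=
  scaled 23 (pows 23 2 11) b1 [0, 20, 18, 16, 5, 22, 2, 4] ++
  scaled 23 (pows 23 2 11) b2 [0, 20, 10, 14, 21, 17, 22, 6]

theorem s1296 : ∃ 𝓑 : Set (Finset (Fin 1296)), IsS2 (Fin 1296) 8 𝓑 :=
  main agl (codedZ 23) 8 8 1296 (by decide) f23 ag8 ag8f (by decide +kernel) ag8_ok ag8f_ok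
    (by decide +kernel) (coverB_spec ag8_cover) (by decide +kernel)

/-- base blocks over `AGL(1,8) × 𝔽_27` -/
def f27 : List (List ℕ) := [
   [0, 3, 706, 749, 1040, 1130, 1223, 1276],
   [0, 5, 716, 741, 1028, 1124, 1240, 1285],
   [0, 23, 704, 740, 1044, 1111, 1216, 1291],
   [0, 17, 720, 735, 1047, 1121, 1224, 1277],
   [0, 4, 723, 736, 1052, 1109, 1230, 1294],
   [0, 14, 728, 745, 1036, 1125, 1228, 1270],
   [0, 2, 712, 751, 1050, 1128, 1235, 1278],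
   [0, 18, 726, 737, 1045, 1133, 1227, 1284],
   [0, 21, 721, 754, 1029, 1117, 1226, 1282],
   [0, 26, 705, 730, 1031, 1131, 1221, 1289],
   [0, 10, 707, 738, 1049, 1126, 1222, 1281],
   [0, 24, 725, 744, 1043, 1110, 1231, 1280],
   [0, 19, 719, 742, 1030, 1112, 1237, 1275],
   [0, 41, 76, 129, 302, 447, 763, 1367],
   [0, 29, 62, 134, 320, 445, 772, 1354],
   [0, 45, 79, 118, 314, 452, 778, 1364],
   [0, 48, 55, 132, 301, 444, 764, 1352],
   [0, 53, 63, 127, 311, 443, 781, 1368],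
   [0, 37, 69, 111, 299, 438, 757, 1371],
   [0, 51, 67, 113, 315, 439, 765, 1376],
   [0, 46, 74, 131, 318, 448, 771, 1360],
   [0, 30, 66, 125, 323, 454, 769, 1374],
   [0, 32, 65, 112, 307, 440, 776, 1369],
   [0, 50, 60, 122, 321, 457, 768, 1353],
   [0, 44, 61, 110, 316, 433, 767, 1355],
   [0, 31, 70, 126, 300, 441, 762, 1373]]

theorem s1513 : ∃ 𝓑 : Set (Finset (Fin 1513)), IsS2 (Fin 1513) 8 𝓑 :=
  main agl (codedP 3 (codedP 3 (codedZ 3))) 8 1 1513 (by decide) f27 pg7 [] (by decide +kernel) pg7_ok (by decide +kernel)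
    (by decide +kernel) (coverB_spec pg7_cover) (by decide +kernel)

theorem s1520 : ∃ 𝓑 : Set (Finset (Fin 1520)), IsS2 (Fin 1520) 8 𝓑 :=
  main agl (codedP 3 (codedP 3 (codedZ 3))) 8 8 1520 (by decide) f27 ag8 ag8f (by decide +kernel) ag8_ok ag8f_ok
    (by decide +kernel) (coverB_spec ag8_cover) (by decide +kernel)

/-- base blocks over `AGL(1,8) × 𝔽_31` -/
def f31 : List (List ℕ) :=
  scaled 31 (pows 31 9 15) b1 [0, 3, 25, 1, 23, 16, 14, 12] ++
  scaled 31 (pows 31 9 15) b2 [0, 11, 29, 23, 19, 7, 9, 30]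

theorem s1737 : ∃ 𝓑 : Set (Finset (Fin 1737)), IsS2 (Fin 1737) 8 𝓑 :=
  main agl (codedZ 31) 8 1 1737 (by decide) f31 pg7 [] (by decide +kernel) pg7_ok (by decide +kernel)
    (by decide +kernel) (coverB_spec pg7_cover) (by decide +kernel)

/-- base blocks over `AGL(1,8) × 𝔽_59` -/
def f59 : List (List ℕ) :=
  scaled 59 (pows 59 4 29) b1 [0, 12, 39, 46, 36, 33, 38, 26] ++
  scaled 59 (pows 59 4 29) b2 [0, 17, 50, 3, 15, 14, 18, 11]

theorem s3305 : ∃ 𝓑 : Set (Finset (Fin 3305)), IsS2 (Fin 3305) 8 𝓑 :=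
  main agl (codedZ 59) 8 1 3305 (by decide) f59 pg7 [] (by decide +kernel) pg7_ok (by decide +kernel)
    (by decide +kernel) (coverB_spec pg7_cover) (by decide +kernel)

/-- base blocks over `AGL(1,8) × 𝔽_61` -/
def f61 : List (List ℕ) :=
  scaled 61 (pows 61 16 15) b1 [0, 30, 31, 52, 44, 4, 11, 39] ++
  scaled 61 (pows 61 16 15) b2 [0, 34, 9, 11, 18, 15, 41, 40] ++
  scaled 61 (pows 61 16 15) b1 [0, 49, 33, 38, 16, 56, 7, 21] ++
  scaled 61 (pows 61 16 15) b2 [0, 44, 37, 56, 8, 32, 53, 22]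

theorem s3417 : ∃ 𝓑 : Set (Finset (Fin 3417)), IsS2 (Fin 3417) 8 𝓑 :=
  main agl (codedZ 61) 8 1 3417 (by decide) f61 pg7 [] (by decide +kernel) pg7_ok (by decide +kernel)
    (by decide +kernel) (coverB_spec pg7_cover) (by decide +kernel)

/-- base blocks over `AGL(1,8) × 𝔽_67` -/
def f67 : List (List ℕ) :=
  scaled 67 (pows 67 4 33) b1 [0, 48, 41, 58, 2, 15, 39, 46] ++
  scaled 67 (pows 67 4 33) b2 [0, 43, 23, 34, 2, 17, 22, 58]

theorem s3753 : ∃ 𝓑 : Set (Finset (Fin 3753)), IsS2 (Fin 3753) 8 𝓑 :=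
  main agl (codedZ 67) 8 1 3753 (by decide) f67 pg7 [] (by decide +kernel) pg7_ok (by decide +kernel)
    (by decide +kernel) (coverB_spec pg7_cover) (by decide +kernel)

end Pool.Agent.H216R3.StGrp
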