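import Pool.Agent.H216R3.StGrp

/-!
Steiner systems with blocks of size `9` from difference families over `ℤ_8 × 𝔽_q`.
-/

namespace Pool.Agent.H216R3.StGrp

open Pool.Agent.H816R2.KM2

/-- base blocks over `ℤ_8 × 𝔽_127` -/
def g127 : List (List ℕ) :=
  scaled 127 (pows 127 4 7) [1, 0, 0, 0, 0, 4, 5, 6, 7]
    [0, 3, 82, 83, 119, 90, 9, 5, 23] ++
  scaled 127 (pows 127 4 7) [1, 0, 0, 2, 3, 3, 5, 5, 7]
    [0, 11, 108, 42, 17, 109, 27, 81, 103]

theorem s1017 : ∃ 𝓑 : Set (Finset (Fin 1017)), IsS2 (Fin 1017) 9 𝓑 :=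
  main (ofCoded (codedZ 8)) (codedZ 127) 9 1 1017 (by decide) g127
    [[0, 1, 2, 3, 4, 5, 6, 7, 8]] [] (by decide +kernel) (by decide +kernel)
    (by decide +kernel) (by decide +kernel) (coverB_spec (by decide +kernel))
    (by decide +kernel)

/-- base blocks over `ℤ_8 × 𝔽_163` -/
def g163 : List (List ℕ) :=
  scaled 163 (pows 163 40 9) [2, 0, 0, 0, 5, 5, 6, 6, 7]
    [0, 12, 76, 134, 123, 140, 4, 96, 74] ++
  scaled 163 (pows 163 40 9) [1, 0, 0, 0, 3, 4, 4, 6, 7]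
    [0, 20, 40, 137, 103, 143, 152, 112, 115]

theorem s1305 : ∃ 𝓑 : Set (Finset (Fin 1305)), IsS2 (Fin 1305) 9 𝓑 :=
  main (ofCoded (codedZ 8)) (codedZ 163) 9 1 1305 (by decide) g163
    [[0, 1, 2, 3, 4, 5, 6, 7, 8]] [] (by decide +kernel) (by decide +kernel)
    (by decide +kernel) (by decide +kernel) (coverB_spec (by decide +kernel))
    (by decide +kernel)

/-- base blocks over `ℤ_8 × 𝔽_199` -/
def g199 : List (List ℕ) :=
  scaled 199 (pows 199 125 11) [2, 0, 0, 0, 5, 5, 6, 6, 7]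
    [0, 92, 122, 151, 35, 97, 36, 142, 167] ++
  scaled 199 (pows 199 125 11) [1, 0, 0, 0, 3, 4, 4, 6, 7]
    [0, 36, 90, 194, 97, 77, 168, 175, 144]

theorem s1593 : ∃ 𝓑 : Set (Finset (Fin 1593)), IsS2 (Fin 1593) 9 𝓑 :=
  main (ofCoded (codedZ 8)) (codedZ 199) 9 1 1593 (by decide) g199
    [[0, 1, 2, 3, 4, 5, 6, 7, 8]] [] (by decide +kernel) (by decide +kernel)
    (by decide +kernel) (by decide +kernel) (coverB_spec (by decide +kernel))
    (by decide +kernel)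

/-- base blocks over `ℤ_8 × 𝔽_307` -/
def g307 : List (List ℕ) :=
  scaled 307 (pows 307 81 17) [2, 0, 0, 0, 5, 5, 6, 6, 7]
    [0, 219, 236, 284, 223, 245, 82, 85, 276] ++
  scaled 307 (pows 307 81 17) [1, 0, 0, 0, 3, 4, 4, 6, 7]
    [0, 11, 70, 117, 230, 87, 305, 103, 189]

theorem s2457 : ∃ 𝓑 : Set (Finset (Fin 2457)), IsS2 (Fin 2457) 9 𝓑 :=
  main (ofCoded (codedZ 8)) (codedZ 307) 9 1 2457 (by decide) g307
    [[0, 1, 2, 3, 4, 5, 6, 7, 8]] [] (by decide +kernel) (by decide +kernel)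
    (by decide +kernel) (by decide +kernel) (coverB_spec (by decide +kernel))
    (by decide +kernel)

/-- base blocks over `ℤ_8 × 𝔽_343` -/
def g343 : List (List ℕ) := [
   [1029, 409, 30, 2657, 1364, 1141, 22, 160, 396],
   [1029, 623, 151, 2558, 1259, 1068, 26, 130, 445],
   [1029, 360, 289, 2704, 1342, 1070, 199, 57, 367],
   [1029, 358, 201, 2712, 1233, 1132, 110, 54, 480],
   [1029, 590, 221, 2543, 1143, 1112, 149, 154, 522],
   [1029, 659, 129, 2584, 1130, 1275, 178, 182, 665],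
   [1029, 447, 5, 2675, 1337, 1293, 270, 222, 510],
   [1029, 478, 281, 2698, 1344, 1360, 2, 188, 539],
   [1029, 411, 76, 2649, 1123, 1030, 118, 163, 675],
   [1029, 349, 180, 2433, 1349, 1088, 323, 23, 403],
   [1029, 683, 38, 2663, 1355, 1194, 219, 78, 560],
   [1029, 577, 325, 2621, 1075, 1163, 18, 14, 593],
   [1029, 608, 330, 2471, 1136, 1038, 74, 244, 486],
   [1029, 390, 341, 2633, 1057, 1262, 69, 158, 585],
   [1029, 509, 293, 2548, 1118, 1235, 58, 19, 439],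
   [1029, 536, 80, 2468, 1338, 1254, 106, 126, 431],
   [1029, 517, 132, 2740, 1060, 1110, 319, 227, 600],
   [1029, 661, 168, 2576, 1232, 1213, 267, 192, 559],
   [1029, 558, 34, 2501, 1091, 1362, 224, 115, 468],
   [343, 38, 303, 767, 1336, 1381, 1559, 2158, 2572],
   [343, 325, 311, 870, 1219, 1605, 1483, 2314, 2549],
   [343, 330, 142, 1019, 1033, 1578, 1580, 2215, 2520],
   [343, 341, 183, 798, 1258, 1597, 1708, 2361, 2506],
   [343, 293, 274, 725, 1283, 1453, 1384, 2369, 2661],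
   [343, 80, 297, 727, 1124, 1556, 1383, 2200, 2510],
   [343, 132, 248, 789, 1058, 1705, 1667, 2241, 2547],
   [343, 168, 32, 769, 1170, 1484, 1558, 2332, 2421],
   [343, 34, 262, 932, 1160, 1411, 1424, 2355, 2586],
   [343, 30, 220, 950, 1145, 1413, 1464, 2306, 2443],
   [343, 151, 70, 1017, 1241, 1475, 1581, 2090, 2678],
   [343, 289, 232, 687, 1317, 1455, 1375, 2320, 2525],
   [343, 201, 147, 745, 1220, 1618, 1542, 2278, 2444],
   [343, 221, 67, 851, 1085, 1636, 1517, 2128, 2730],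
   [343, 129, 339, 820, 1073, 1703, 1676, 2290, 2683],
   [343, 5, 175, 695, 1074, 1373, 1399, 2205, 2529],
   [343, 281, 100, 919, 1084, 1431, 1630, 2125, 2739],
   [343, 76, 256, 892, 1242, 1537, 1640, 2397, 2524],
   [343, 180, 157, 911, 1327, 1506, 1655, 2233, 2735]]

theorem s2745 : ∃ 𝓑 : Set (Finset (Fin 2745)), IsS2 (Fin 2745) 9 𝓑 :=
  main (ofCoded (codedZ 8)) (codedP 7 (codedP 7 (codedZ 7))) 9 1 2745 (by decide) g343
    [[0, 1, 2, 3, 4, 5, 6, 7, 8]] [] (by decide +kernel) (by decide +kernel)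
    (by decide +kernel) (by decide +kernel) (coverB_spec (by decide +kernel))
    (by decide +kernel)

/-- base blocks over `ℤ_8 × 𝔽_919` -/
def g919 : List (List ℕ) :=
  scaled 919 (pows 919 318 51) [0, 6, 0, 2, 0, 7, 1, 5, 6]
    [0, 119, 283, 458, 739, 287, 884, 394, 810] ++
  scaled 919 (pows 919 318 51) [2, 0, 0, 0, 4, 4, 5, 5, 7]
    [0, 17, 519, 555, 115, 251, 129, 907, 27]

theorem s7353 : ∃ 𝓑 : Set (Finset (Fin 7353)), IsS2 (Fin 7353) 9 𝓑 :=
  main (ofCoded (codedZ 8)) (codedZ 919) 9 1 7353 (by decide) g919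
    [[0, 1, 2, 3, 4, 5, 6, 7, 8]] [] (by decide +kernel) (by decide +kernel)
    (by decide +kernel) (by decide +kernel) (coverB_spec (by decide +kernel))
    (by decide +kernel)

end Pool.Agent.H216R3.StGrp
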