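import Pool.Agent.H216R3.StA4

/-!
Steiner systems with blocks of size `9` from difference families over `(A_4 × ℤ_6) × 𝔽_q`.
-/

namespace Pool.Agent.H216R3.StGrp

open Pool.Agent.H816R2.KM2

/-- base blocks over `(A_4 × ℤ_6) × 𝔽_31` -/
def k31 : List (List ℕ) :=
  scaled 31 (pows 31 16 5) [12, 54, 44, 29, 49, 65, 29, 49, 65]
    [7, 20, 4, 6, 26, 30, 9, 8, 14] ++
  scaled 31 (pows 31 16 5) [0, 18, 10, 51, 55, 69, 48, 58, 66]
    [3, 13, 15, 23, 17, 22, 24, 11, 27] ++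
  scaled 31 (pows 31 16 5) [24, 32, 58, 38, 42, 52, 29, 31, 57]
    [3, 13, 15, 19, 10, 2, 25, 5, 1] ++
  scaled 31 (pows 31 16 5) [6, 8, 10, 40, 44, 48, 39, 43, 53]
    [1, 25, 5, 22, 23, 17, 9, 8, 14] ++
  scaled 31 (pows 31 16 5) [12, 60, 66, 19, 23, 21, 26, 34, 54]
    [11, 27, 24, 2, 19, 10, 20, 4, 7] ++
  scaled 31 (pows 31 16 5) [0, 6, 20, 12, 54, 44, 31, 39, 67]
    [11, 27, 24, 3, 13, 15, 23, 17, 22]

theorem s2233 : ∃ 𝓑 : Set (Finset (Fin 2233)), IsS2 (Fin 2233) 9 𝓑 :=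
  main a4z6 (codedZ 31) 9 1 2233 (by decide) k31 pg8 [] (by decide +kernel) pg8_ok (by decide +kernel)
    (by decide +kernel) (coverB_spec pg8_cover) (by decide +kernel)

theorem s2241 : ∃ 𝓑 : Set (Finset (Fin 2241)), IsS2 (Fin 2241) 9 𝓑 :=
  main a4z6 (codedZ 31) 9 9 2241 (by decide) k31 ag9 ag9f (by decide +kernel) ag9_ok ag9f_ok
    (by decide +kernel) (coverB_spec ag9_cover) (by decide +kernel)

/-- base blocks over `(A_4 × ℤ_6) × 𝔽_43` -/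
def k43 : List (List ℕ) :=
  scaled 43 (pows 43 41 7) [0, 0, 0, 13, 61, 67, 28, 30, 56]
    [2, 29, 12, 31, 41, 14, 40, 21, 25] ++
  scaled 43 (pows 43 41 7) [24, 50, 60, 25, 51, 61, 29, 49, 65]
    [1, 36, 6, 42, 7, 37, 14, 31, 41] ++
  scaled 43 (pows 43 41 7) [0, 6, 20, 27, 53, 63, 33, 41, 69]
    [6, 1, 36, 20, 32, 34, 41, 14, 31] ++
  scaled 43 (pows 43 41 7) [6, 8, 10, 29, 31, 57, 38, 42, 52]
    [1, 36, 6, 20, 32, 34, 38, 35, 13] ++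
  scaled 43 (pows 43 41 7) [0, 18, 10, 17, 41, 27, 14, 38, 24]
    [2, 29, 12, 28, 19, 39, 24, 4, 15] ++
  scaled 43 (pows 43 41 7) [12, 60, 66, 29, 31, 57, 39, 43, 53]
    [2, 29, 12, 17, 10, 16, 37, 42, 7]

theorem s3097 : ∃ 𝓑 : Set (Finset (Fin 3097)), IsS2 (Fin 3097) 9 𝓑 :=
  main a4z6 (codedZ 43) 9 1 3097 (by decide) k43 pg8 [] (by decide +kernel) pg8_ok (by decide +kernel)
    (by decide +kernel) (coverB_spec pg8_cover) (by decide +kernel)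

theorem s3105 : ∃ 𝓑 : Set (Finset (Fin 3105)), IsS2 (Fin 3105) 9 𝓑 :=
  main a4z6 (codedZ 43) 9 9 3105 (by decide) k43 ag9 ag9f (by decide +kernel) ag9_ok ag9f_ok
    (by decide +kernel) (coverB_spec ag9_cover) (by decide +kernel)

/-- base blocks over `(A_4 × ℤ_6) × 𝔽_67` -/
def k67 : List (List ℕ) :=
  scaled 67 (pows 67 64 11) [0, 0, 0, 36, 46, 50, 13, 61, 67]
    [2, 7, 58, 25, 54, 55, 27, 61, 46] ++
  scaled 67 (pows 67 64 11) [18, 22, 20, 26, 34, 54, 27, 35, 55]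
    [1, 37, 29, 46, 27, 61, 65, 60, 9] ++
  scaled 67 (pows 67 64 11) [0, 6, 20, 17, 59, 43, 15, 57, 47]
    [3, 44, 20, 28, 31, 8, 6, 21, 40] ++
  scaled 67 (pows 67 64 11) [12, 60, 66, 41, 45, 49, 25, 33, 59]
    [4, 14, 49, 63, 53, 18, 26, 24, 17] ++
  scaled 67 (pows 67 64 11) [24, 50, 60, 29, 49, 65, 34, 36, 70]
    [1, 37, 29, 65, 60, 9, 34, 52, 48] ++
  scaled 67 (pows 67 64 11) [0, 18, 10, 31, 63, 45, 34, 60, 42]
    [2, 7, 58, 64, 23, 47, 30, 38, 66]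

theorem s4825 : ∃ 𝓑 : Set (Finset (Fin 4825)), IsS2 (Fin 4825) 9 𝓑 :=
  main a4z6 (codedZ 67) 9 1 4825 (by decide) k67 pg8 [] (by decide +kernel) pg8_ok (by decide +kernel)
    (by decide +kernel) (coverB_spec pg8_cover) (by decide +kernel)

theorem s4833 : ∃ 𝓑 : Set (Finset (Fin 4833)), IsS2 (Fin 4833) 9 𝓑 :=
  main a4z6 (codedZ 67) 9 9 4833 (by decide) k67 ag9 ag9f (by decide +kernel) ag9_ok ag9f_ok
    (by decide +kernel) (coverB_spec ag9_cover) (by decide +kernel)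

/-- base blocks over `(A_4 × ℤ_6) × 𝔽_103` -/
def k103 : List (List ℕ) :=
  scaled 103 (pows 103 72 17) [0, 0, 0, 15, 63, 69, 19, 23, 21]
    [1, 56, 46, 88, 87, 31, 59, 8, 36] ++
  scaled 103 (pows 103 72 17) [24, 50, 60, 32, 40, 68, 31, 39, 67]
    [5, 74, 24, 32, 41, 30, 10, 45, 48] ++
  scaled 103 (pows 103 72 17) [0, 6, 20, 13, 55, 45, 12, 54, 44]
    [2, 9, 92, 20, 90, 96, 12, 54, 37] ++
  scaled 103 (pows 103 72 17) [0, 18, 10, 33, 65, 47, 49, 59, 67]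
    [1, 56, 46, 14, 63, 26, 61, 17, 25] ++
  scaled 103 (pows 103 72 17) [12, 60, 66, 18, 22, 20, 25, 33, 59]
    [6, 27, 70, 84, 69, 53, 87, 31, 88] ++
  scaled 103 (pows 103 72 17) [24, 32, 58, 41, 45, 49, 38, 42, 52]
    [2, 9, 92, 84, 69, 53, 94, 11, 101]

theorem s7425 : ∃ 𝓑 : Set (Finset (Fin 7425)), IsS2 (Fin 7425) 9 𝓑 :=
  main a4z6 (codedZ 103) 9 9 7425 (by decide) k103 ag9 ag9f (by decide +kernel) ag9_ok ag9f_ok
    (by decide +kernel) (coverB_spec ag9_cover) (by decide +kernel)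

/-- base blocks over `(A_4 × ℤ_6) × 𝔽_139` -/
def k139 : List (List ℕ) :=
  scaled 139 (pows 139 64 23) [0, 0, 0, 7, 9, 11, 40, 44, 48]
    [2, 53, 84, 81, 131, 66, 71, 5, 63] ++
  scaled 139 (pows 139 64 23) [12, 54, 44, 17, 59, 43, 29, 49, 65]
    [4, 106, 29, 71, 5, 63, 115, 59, 104] ++
  scaled 139 (pows 139 64 23) [24, 32, 58, 37, 47, 51, 29, 31, 57]
    [1, 96, 42, 44, 54, 41, 133, 119, 26] ++
  scaled 139 (pows 139 64 23) [18, 22, 20, 24, 32, 58, 41, 45, 49]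
    [1, 96, 42, 137, 86, 55, 130, 109, 39] ++
  scaled 139 (pows 139 64 23) [0, 6, 20, 24, 50, 60, 27, 53, 63]
    [3, 10, 126, 27, 90, 22, 83, 45, 11] ++
  scaled 139 (pows 139 64 23) [0, 18, 10, 13, 37, 29, 49, 59, 67]
    [3, 10, 126, 78, 121, 79, 130, 109, 39]

theorem s10017 : ∃ 𝓑 : Set (Finset (Fin 10017)), IsS2 (Fin 10017) 9 𝓑 :=
  main a4z6 (codedZ 139) 9 9 10017 (by decide) k139 ag9 ag9f (by decide +kernel) ag9_ok ag9f_ok
    (by decide +kernel) (coverB_spec ag9_cover) (by decide +kernel)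

end Pool.Agent.H216R3.StGrp
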