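import Pool.Agent.H216R3.StGrp

/-!
Steiner systems `S(793,9,2)`, from a difference family over `ℤ_13 × ℤ_61`, and `S(4905,9,2)`,
from a difference family over `ℤ_2^3 × 𝔽_613`.
-/

namespace Pool.Agent.H216R3.StGrp

open Pool.Agent.H816R2.KM2

def k793 : List (List ℕ) := [
   [0, 13, 104, 221, 650, 547, 558, 616, 619],
   [0, 169, 559, 494, 520, 757, 764, 15, 24],
   [0, 611, 130, 78, 416, 295, 290, 175, 176],
   [378, 146, 282, 288, 552, 759, 670, 697, 245],
   [389, 153, 277, 297, 553, 762, 669, 694, 236],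
   [170, 614, 22, 43, 519, 257, 72, 60, 687],
   [181, 621, 17, 48, 508, 250, 71, 57, 678],
   [235, 666, 698, 366, 773, 460, 394, 324, 101],
   [246, 673, 693, 375, 774, 463, 399, 313, 94],
   [222, 497, 87, 654, 532, 426, 410, 489, 713],
   [233, 504, 82, 659, 521, 419, 409, 486, 704]]

theorem s793 : ∃ 𝓑 : Set (Finset (Fin 793)), IsS2 (Fin 793) 9 𝓑 :=
  main (ofCoded (codedZ 1)) (codedP 13 (codedZ 61)) 9 0 793 (by decide) k793 [] []
    (by decide +kernel) (by decide +kernel) (by decide +kernel) (by decide +kernel)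
    (coverB_spec (by decide +kernel)) (by decide +kernel)

/-- base blocks over `ℤ_2^3 × 𝔽_613` -/
def g613 : List (List ℕ) :=
  scaled 613 (pows 613 586 17) [0, 0, 0, 1, 2, 4, 3, 6, 5]
    [3, 195, 415, 6, 390, 217, 561, 298, 367] ++
  scaled 613 (pows 613 586 17) [0, 0, 0, 1, 2, 4, 1, 2, 4]
    [14, 297, 302, 348, 552, 326, 141, 583, 502] ++
  scaled 613 (pows 613 586 17) [0, 0, 0, 7, 7, 7, 3, 6, 5]
    [7, 455, 151, 289, 395, 542, 163, 174, 276] ++
  scaled 613 (pows 613 586 17) [1, 2, 4, 1, 2, 4, 3, 6, 5]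
    [26, 464, 123, 509, 596, 121, 132, 611, 483]

theorem s4905 : ∃ 𝓑 : Set (Finset (Fin 4905)), IsS2 (Fin 4905) 9 𝓑 :=
  main (ofCoded (codedP 2 (codedP 2 (codedZ 2)))) (codedZ 613) 9 1 4905 (by decide) g613
    [[0, 1, 2, 3, 4, 5, 6, 7, 8]] [] (by decide +kernel) (by decide +kernel)
    (by decide +kernel) (by decide +kernel) (coverB_spec (by decide +kernel))
    (by decide +kernel)

end Pool.Agent.H216R3.StGrp
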