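import Pool.Agent.H216R3.StA4

/-!
Steiner systems with blocks of size `9` from difference families over `ℤ_72 × 𝔽_q`. Two base
blocks are fixed by `(n, x) ↦ (19 n, -x)`, and two are interchanged by it.
-/

namespace Pool.Agent.H216R3.StGrp

open Pool.Agent.H816R2.KM2

/-- base blocks over `ℤ_72 × 𝔽_37` -/
def c37 : List (List ℕ) :=
  scaled 37 (pows 37 16 9) [0, 15, 69, 26, 62, 37, 55, 49, 67]
    [0, 34, 3, 26, 11, 14, 23, 9, 28] ++
  scaled 37 (pows 37 16 9) [0, 2, 38, 32, 32, 41, 59, 60, 60]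
    [0, 31, 6, 24, 13, 23, 14, 16, 21] ++
  scaled 37 (pows 37 16 9) [0, 6, 2, 10, 37, 53, 58, 61, 63]
    [0, 1, 23, 27, 12, 35, 26, 30, 18] ++
  scaled 37 (pows 37 16 9) [0, 42, 38, 46, 55, 71, 22, 7, 45]
    [0, 36, 14, 10, 25, 2, 11, 7, 19]

theorem s2665 : ∃ 𝓑 : Set (Finset (Fin 2665)), IsS2 (Fin 2665) 9 𝓑 :=
  main (ofCoded (codedZ 72)) (codedZ 37) 9 1 2665 (by decide) c37 pg8 [] (by decide +kernel)
    pg8_ok (by decide +kernel) (by decide +kernel) (coverB_spec pg8_cover) (by decide +kernel)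

/-- base blocks over `ℤ_72 × 𝔽_53` -/
def c53 : List (List ℕ) :=
  scaled 53 (pows 53 16 13) [0, 15, 69, 26, 62, 37, 55, 49, 67]
    [0, 21, 32, 24, 29, 18, 35, 43, 10] ++
  scaled 53 (pows 53 16 13) [0, 2, 38, 32, 32, 41, 59, 60, 60]
    [0, 3, 50, 25, 28, 13, 40, 27, 26] ++
  scaled 53 (pows 53 16 13) [0, 6, 2, 10, 37, 53, 58, 61, 63]
    [0, 1, 46, 18, 47, 27, 9, 13, 19] ++
  scaled 53 (pows 53 16 13) [0, 42, 38, 46, 55, 71, 22, 7, 45]
    [0, 52, 7, 35, 6, 26, 44, 40, 34]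

theorem s3817 : ∃ 𝓑 : Set (Finset (Fin 3817)), IsS2 (Fin 3817) 9 𝓑 :=
  main (ofCoded (codedZ 72)) (codedZ 53) 9 1 3817 (by decide) c53 pg8 [] (by decide +kernel)
    pg8_ok (by decide +kernel) (by decide +kernel) (coverB_spec pg8_cover) (by decide +kernel)

/-- base blocks over `ℤ_72 × 𝔽_61` -/
def c61 : List (List ℕ) :=
  scaled 61 (pows 61 16 15) [0, 15, 69, 26, 62, 37, 55, 49, 67]
    [0, 39, 22, 41, 20, 27, 34, 38, 23] ++
  scaled 61 (pows 61 16 15) [0, 2, 38, 32, 32, 41, 59, 60, 60]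
    [0, 30, 31, 10, 51, 2, 59, 49, 12] ++
  scaled 61 (pows 61 16 15) [0, 6, 2, 10, 37, 53, 58, 61, 63]
    [0, 2, 54, 28, 7, 8, 30, 55, 9] ++
  scaled 61 (pows 61 16 15) [0, 42, 38, 46, 55, 71, 22, 7, 45]
    [0, 59, 7, 33, 54, 53, 31, 6, 52]

theorem s4393 : ∃ 𝓑 : Set (Finset (Fin 4393)), IsS2 (Fin 4393) 9 𝓑 :=
  main (ofCoded (codedZ 72)) (codedZ 61) 9 1 4393 (by decide) c61 pg8 [] (by decide +kernel)
    pg8_ok (by decide +kernel) (by decide +kernel) (coverB_spec pg8_cover) (by decide +kernel)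

theorem s4401 : ∃ 𝓑 : Set (Finset (Fin 4401)), IsS2 (Fin 4401) 9 𝓑 :=
  main (ofCoded (codedZ 72)) (codedZ 61) 9 9 4401 (by decide) c61 ag9 ag9f (by decide +kernel)
    ag9_ok ag9f_ok (by decide +kernel) (coverB_spec ag9_cover) (by decide +kernel)

/-- base blocks over `ℤ_72 × 𝔽_229` -/
def c229 : List (List ℕ) :=
  scaled 229 (pows 229 151 57) [0, 15, 69, 26, 62, 37, 55, 49, 67]
    [0, 181, 48, 142, 87, 215, 14, 131, 98] ++
  scaled 229 (pows 229 151 57) [0, 2, 38, 32, 32, 41, 59, 60, 60]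
    [0, 19, 210, 28, 201, 156, 73, 99, 130] ++
  scaled 229 (pows 229 151 57) [0, 6, 2, 10, 37, 53, 58, 61, 63]
    [0, 4, 157, 6, 66, 79, 205, 51, 227] ++
  scaled 229 (pows 229 151 57) [0, 42, 38, 46, 55, 71, 22, 7, 45]
    [0, 225, 72, 223, 163, 150, 24, 178, 2]

theorem s16497 : ∃ 𝓑 : Set (Finset (Fin 16497)), IsS2 (Fin 16497) 9 𝓑 :=
  main (ofCoded (codedZ 72)) (codedZ 229) 9 9 16497 (by decide) c229 ag9 ag9f (by decide +kernel)
    ag9_ok ag9f_ok (by decide +kernel) (coverB_spec ag9_cover) (by decide +kernel)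

end Pool.Agent.H216R3.StGrp
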