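import Pool.Agent.H216R3.StGrp

/-!
A Steiner system with blocks of size `9` from a difference family over `ℤ_2^3 × 𝔽_1567`.
-/

namespace Pool.Agent.H216R3.StGrp

open Pool.Agent.H816R2.KM2

/-- base blocks over `ℤ_2^3 × 𝔽_1567` -/
def g1567 : List (List ℕ) :=
  scaled 1567 (pows 1567 617 29) [0, 0, 0, 3, 6, 5, 1, 2, 4]
    [16, 725, 826, 179, 178, 1210, 399, 353, 815] ++
  scaled 1567 (pows 1567 617 29) [0, 0, 0, 1, 2, 4, 7, 7, 7]
    [15, 190, 1362, 527, 1452, 1155, 363, 1464, 1307] ++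
  scaled 1567 (pows 1567 617 29) [0, 0, 0, 3, 6, 5, 1, 2, 4]
    [3, 38, 1526, 811, 1393, 930, 243, 1511, 1380] ++
  scaled 1567 (pows 1567 617 29) [0, 0, 0, 3, 6, 5, 1, 2, 4]
    [25, 839, 703, 1335, 1240, 559, 138, 181, 1248] ++
  scaled 1567 (pows 1567 617 29) [0, 0, 0, 3, 6, 5, 7, 7, 7]
    [4, 573, 990, 1427, 316, 1391, 544, 1145, 1445] ++
  scaled 1567 (pows 1567 617 29) [0, 0, 0, 1, 2, 4, 1, 2, 4]
    [23, 1336, 208, 1356, 1506, 272, 348, 1274, 1512]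

theorem s12537 : ∃ 𝓑 : Set (Finset (Fin 12537)), IsS2 (Fin 12537) 9 𝓑 :=
  main (ofCoded (codedP 2 (codedP 2 (codedZ 2)))) (codedZ 1567) 9 1 12537 (by decide) g1567
    [[0, 1, 2, 3, 4, 5, 6, 7, 8]] [] (by decide +kernel) (by decide +kernel)
    (by decide +kernel) (by decide +kernel) (coverB_spec (by decide +kernel))
    (by decide +kernel)

end Pool.Agent.H216R3.StGrp
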