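import Pool.Agent.H216R3.StGrp

/-!
A Steiner system with blocks of size `9` from a difference family over `ℤ_2^3 × 𝔽_361`.
-/

namespace Pool.Agent.H216R3.StGrp

open Pool.Agent.H816R2.KM2

/-- base blocks over `ℤ_2^3 × ℤ_19^2` -/
def g361 : List (List ℕ) :=
  [[5, 16, 17, 680, 1055, 1552, 463, 1037, 1768],
    [269, 59, 52, 535, 838, 1534, 569, 981, 1737],
    [349, 239, 153, 396, 872, 1658, 673, 1063, 1551],
    [25, 137, 218, 631, 788, 1488, 679, 1048, 1541],
    [112, 309, 339, 684, 817, 1748, 561, 982, 1744],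
    [250, 287, 204, 720, 955, 1612, 362, 729, 1455],
    [138, 225, 36, 563, 977, 1747, 715, 958, 1614],
    [302, 195, 263, 430, 768, 1728, 655, 918, 1695],
    [291, 194, 256, 416, 993, 1517, 442, 909, 1575],
    [140, 220, 20, 474, 1038, 1775, 391, 856, 1660],
    [32, 148, 219, 2683, 2878, 2761, 592, 876, 1800],
    [329, 99, 313, 2686, 2880, 2756, 649, 914, 1705],
    [201, 248, 292, 2627, 2847, 2867, 560, 975, 1733],
    [76, 171, 114, 2768, 2694, 2879, 489, 801, 1617],
    [122, 94, 183, 2631, 2837, 2854, 636, 785, 1486],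
    [356, 231, 154, 2864, 2625, 2833, 593, 883, 1792],
    [261, 288, 192, 2577, 2801, 2602, 642, 789, 1495],
    [289, 199, 253, 2732, 2784, 2825, 493, 810, 1623],
    [173, 128, 79, 2537, 2540, 2542, 551, 969, 1729],
    [42, 275, 63, 2704, 2645, 2612, 647, 919, 1702],
    [363, 736, 1447, 530, 1069, 1688, 1288, 2423, 2103],
    [689, 833, 1765, 638, 780, 1489, 1093, 2179, 1820],
    [588, 753, 1585, 559, 987, 1741, 1260, 2284, 1890],
    [523, 1077, 1687, 496, 945, 1466, 1420, 2264, 2111],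
    [402, 990, 1515, 703, 950, 1596, 1133, 2440, 1880],
    [537, 852, 1537, 550, 848, 1528, 1363, 2226, 1845],
    [705, 964, 1599, 462, 1030, 1776, 1222, 2379, 1833],
    [478, 800, 1629, 576, 745, 1586, 1359, 2236, 1858],
    [485, 811, 1630, 398, 867, 1661, 1307, 2195, 1951],
    [721, 962, 1604, 598, 880, 1790, 1304, 2193, 1956],
    [19, 133, 209, 1227, 2376, 1831, 418, 760, 1710],
    [211, 33, 136, 1267, 2295, 1891, 633, 783, 1491],
    [103, 322, 335, 1276, 2415, 2104, 651, 928, 1708],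
    [182, 115, 83, 1329, 2330, 2155, 527, 1067, 1674],
    [245, 157, 358, 1095, 2174, 1823, 697, 832, 1758],
    [143, 222, 34, 1342, 2459, 2013, 410, 989, 1508],
    [191, 254, 296, 1424, 2273, 2117, 573, 743, 1591],
    [279, 72, 48, 1409, 2263, 2123, 438, 900, 1569],
    [165, 357, 238, 1343, 2466, 2005, 457, 1033, 1778],
    [343, 235, 163, 1398, 2490, 1907, 668, 1047, 1553]]

theorem s2889 : ∃ 𝓑 : Set (Finset (Fin 2889)), IsS2 (Fin 2889) 9 𝓑 :=
  main (ofCoded (codedP 2 (codedP 2 (codedZ 2)))) (codedP 19 (codedZ 19)) 9 1 2889 (by decide) g361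
    [[0, 1, 2, 3, 4, 5, 6, 7, 8]] [] (by decide +kernel) (by decide +kernel)
    (by decide +kernel) (by decide +kernel) (coverB_spec (by decide +kernel))
    (by decide +kernel)

end Pool.Agent.H216R3.StGrp
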