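import Pool.Agent.H216R3.StA4

/-!
A Steiner system with blocks of size `9` from a difference family over
`(ℤ_2^3 × ℤ_3^2) × 𝔽_41`, invariant under an automorphism of order `8`.
-/

namespace Pool.Agent.H216R3.StGrp

open Pool.Agent.H816R2.KM2

/-- base blocks over `(ℤ_2^3 × ℤ_3^2) × ℤ_41` -/
def e41 : List (List ℕ) :=
  [[0, 1642, 111, 2578, 834, 853, 312, 552, 2671],
    [0, 1660, 85, 2574, 837, 822, 291, 559, 2684],
    [0, 1676, 112, 2575, 826, 840, 327, 547, 2691],
    [0, 1672, 95, 2544, 839, 856, 318, 550, 2679],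
    [0, 1673, 89, 2562, 846, 852, 310, 539, 2682],
    [0, 341, 250, 767, 2141, 2162, 60, 1292, 1802],
    [0, 335, 286, 741, 2140, 2145, 67, 1276, 1784],
    [0, 357, 277, 768, 2171, 2139, 55, 1280, 1768],
    [0, 331, 269, 751, 2153, 2161, 58, 1279, 1772],
    [0, 358, 271, 745, 2137, 2135, 47, 1310, 1771],
    [0, 1007, 108, 2218, 2826, 2819, 144, 1387, 561],
    [0, 1009, 96, 2254, 2799, 2811, 128, 1365, 567],
    [0, 988, 99, 2245, 2816, 2813, 132, 1391, 545],
    [0, 1024, 88, 2237, 2822, 2792, 131, 1364, 571],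
    [0, 1015, 101, 2239, 2800, 2828, 162, 1381, 544],
    [0, 1318, 251, 2732, 1805, 1821, 239, 2435, 1289],
    [0, 1331, 255, 2720, 1814, 1810, 217, 2456, 1287],
    [0, 1338, 254, 2723, 1822, 1823, 243, 2420, 1308],
    [0, 1326, 285, 2712, 1820, 1830, 216, 2429, 1272],
    [0, 1329, 267, 2725, 1841, 1818, 233, 2437, 1281],
    [0, 339, 1260, 2384, 48, 1084, 103, 1369, 1713],
    [0, 356, 1243, 2397, 70, 1082, 87, 1390, 1714],
    [0, 362, 1237, 2404, 44, 1103, 91, 1354, 1683],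
    [0, 340, 1259, 2392, 71, 1067, 90, 1363, 1701],
    [0, 366, 1233, 2395, 54, 1076, 121, 1371, 1717],
    [0, 994, 1425, 941, 148, 1593, 280, 2441, 454],
    [0, 1002, 1417, 923, 127, 1580, 258, 2434, 481],
    [0, 1000, 1419, 907, 163, 1573, 284, 2446, 464],
    [0, 1021, 1398, 911, 154, 1585, 257, 2443, 458],
    [0, 985, 1434, 910, 146, 1582, 274, 2454, 480],
    [0, 1336, 2559, 2078, 224, 2380, 98, 881, 1229],
    [0, 1347, 2548, 2084, 231, 2398, 119, 897, 1220],
    [0, 1334, 2561, 2062, 219, 2414, 83, 893, 1212],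
    [0, 1327, 2568, 2088, 222, 2410, 92, 894, 1214],
    [0, 1339, 2556, 2061, 211, 2411, 100, 863, 1193],
    [0, 2329, 746, 2888, 308, 915, 268, 2262, 1613],
    [0, 2298, 777, 2886, 292, 909, 261, 2284, 1616],
    [0, 2316, 759, 2907, 296, 931, 273, 2258, 1605],
    [0, 2332, 743, 2871, 295, 905, 270, 2285, 1618],
    [0, 2328, 747, 2880, 326, 932, 281, 2268, 1625]]

theorem s2961 : ∃ 𝓑 : Set (Finset (Fin 2961)), IsS2 (Fin 2961) 9 𝓑 :=
  main (ofCoded (codedP 2 (codedP 2 (codedP 2 (codedP 3 (codedZ 3)))))) (codedZ 41) 9 9 2961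
    (by decide) e41 ag9 ag9f (by decide +kernel)
    ag9_ok ag9f_ok (by decide +kernel) (coverB_spec ag9_cover) (by decide +kernel)

end Pool.Agent.H216R3.StGrp
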