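import Pool.Agent.H816R2.KM2N
import Pool.Agent.H816R2.DF

/-!
Steiner systems `S(2,k,·)` with a (possibly nonabelian) group of automorphisms which fixes one
point and is regular on the other points.  Everything is expressed with natural number codes.
-/

namespace Pool.Agent.H216R3.StGrp

open Finset Pool.Agent.H816R2.KM2

/-- a finite group structure on the codes `0, …, nn - 1` -/
structure CGrp where
  nn : ℕ
  mulc : ℕ → ℕ → ℕ
  invc : ℕ → ℕ
  hnn : 0 < nn
  hmul : ∀ a < nn, ∀ b < nn, mulc a b < nn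
  hinv : ∀ a < nn, invc a < nn
  assoc : ∀ a < nn, ∀ b < nn, ∀ c < nn, mulc (mulc a b) c = mulc a (mulc b c)
  can1 : ∀ a < nn, ∀ b < nn, mulc (mulc a (invc b)) b = a
  can2 : ∀ a < nn, ∀ b < nn, mulc a (mulc (invc a) b) = b
  can3 : ∀ a < nn, ∀ b < nn, mulc (mulc a b) (invc b) = a

section Product

variable {N : Type} [AddCommGroup N] [Fintype N]

/-- multiplication in the product with an abelian group -/
def pmul (q : ℕ) (mulc addc : ℕ → ℕ → ℕ) (p r : ℕ) : ℕ :=
  mulc (p / q) (r / q) * q + addc (p % q) (r % q)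

/-- inversion in the product with an abelian group -/
def pinv (q : ℕ) (invc negc : ℕ → ℕ) (p : ℕ) : ℕ := invc (p / q) * q + negc (p % q)

theorem code_dlt {m q p : ℕ} (h : p < m * q) : p / q < m :=
  Nat.div_lt_of_lt_mul (by rwa [mul_comm] at h)

theorem code_lt {m q i x : ℕ} (hi : i < m) (hx : x < q) : i * q + x < m * q := by
  calc i * q + x < i * q + q := by omega
    _ = (i + 1) * q := by ring
    _ ≤ m * q := Nat.mul_le_mul_right _ hi

theorem code_div {q i x : ℕ} (hx : x < q) : (i * q + x) / q = i := by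
  have hq : 0 < q := by omega
  rw [Nat.add_comm, Nat.add_mul_div_right _ _ hq, Nat.div_eq_of_lt hx, Nat.zero_add]

theorem code_mod {q i x : ℕ} (hx : x < q) : (i * q + x) % q = x := by
  rw [Nat.add_comm, Nat.add_mul_mod_self_right, Nat.mod_eq_of_lt hx]

/-- the product of a coded group with a coded abelian group -/
def cprod (C : CGrp) (A : Coded N) : CGrp where
  nn := C.nn * A.nn
  mulc := pmul A.nn C.mulc A.addc
  invc := pinv A.nn C.invc A.negc
  hnn := Nat.mul_pos C.hnn A.hnn
  hmul := by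
    intro a ha b hb
    exact code_lt (C.hmul _ (Nat.div_lt_of_lt_mul (by rwa [mul_comm] at ha)) _
      (Nat.div_lt_of_lt_mul (by rwa [mul_comm] at hb)))
      (A.hadd _ (Nat.mod_lt _ A.hnn) _ (Nat.mod_lt _ A.hnn)).1
  hinv := by
    intro a ha
    exact code_lt (C.hinv _ (Nat.div_lt_of_lt_mul (by rwa [mul_comm] at ha)))
      (A.hneg _ (Nat.mod_lt _ A.hnn)).1
  assoc := by
    intro a ha b hb c hc
    have ha' : a / A.nn < C.nn := Nat.div_lt_of_lt_mul (by rwa [mul_comm] at ha)
    have hb' : b / A.nn < C.nn := Nat.div_lt_of_lt_mul (by rwa [mul_comm] at hb)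
    have hc' : c / A.nn < C.nn := Nat.div_lt_of_lt_mul (by rwa [mul_comm] at hc)
    have h1 := A.hadd _ (Nat.mod_lt a A.hnn) _ (Nat.mod_lt b A.hnn)
    have h2 := A.hadd _ (Nat.mod_lt b A.hnn) _ (Nat.mod_lt c A.hnn)
    have h3 := A.hadd _ h1.1 _ (Nat.mod_lt c A.hnn)
    have h4 := A.hadd _ (Nat.mod_lt a A.hnn) _ h2.1
    unfold pmul
    rw [code_div h1.1, code_mod h1.1, code_div h2.1, code_mod h2.1, C.assoc _ ha' _ hb' _ hc']
    congr 1
    apply A.heni _ h3.1 _ h4.1
    rw [h3.2, h4.2, h1.2, h2.2, add_assoc]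
  can1 := by
    intro a ha b hb
    have ha' : a / A.nn < C.nn := Nat.div_lt_of_lt_mul (by rwa [mul_comm] at ha)
    have hb' : b / A.nn < C.nn := Nat.div_lt_of_lt_mul (by rwa [mul_comm] at hb)
    have h0 := A.hneg _ (Nat.mod_lt b A.hnn)
    have h1 := A.hadd _ (Nat.mod_lt a A.hnn) _ h0.1
    have h2 := A.hadd _ h1.1 _ (Nat.mod_lt b A.hnn)
    unfold pmul pinv
    rw [code_div h0.1, code_mod h0.1, code_div h1.1, code_mod h1.1, C.can1 _ ha' _ hb']
    have h3 : A.addc (A.addc (a % A.nn) (A.negc (b % A.nn))) (b % A.nn) = a % A.nn := by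
      apply A.heni _ h2.1 _ (Nat.mod_lt a A.hnn)
      rw [h2.2, h1.2, h0.2]
      abel
    rw [h3, Nat.div_add_mod']
  can2 := by
    intro a ha b hb
    have ha' : a / A.nn < C.nn := Nat.div_lt_of_lt_mul (by rwa [mul_comm] at ha)
    have hb' : b / A.nn < C.nn := Nat.div_lt_of_lt_mul (by rwa [mul_comm] at hb)
    have h0 := A.hneg _ (Nat.mod_lt a A.hnn)
    have h1 := A.hadd _ h0.1 _ (Nat.mod_lt b A.hnn)
    have h2 := A.hadd _ (Nat.mod_lt a A.hnn) _ h1.1
    unfold pmul pinv
    rw [code_div h0.1, code_mod h0.1, code_div h1.1, code_mod h1.1, C.can2 _ ha' _ hb']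
    have h3 : A.addc (a % A.nn) (A.addc (A.negc (a % A.nn)) (b % A.nn)) = b % A.nn := by
      apply A.heni _ h2.1 _ (Nat.mod_lt b A.hnn)
      rw [h2.2, h1.2, h0.2]
      abel
    rw [h3, Nat.div_add_mod']
  can3 := by
    intro a ha b hb
    have ha' : a / A.nn < C.nn := Nat.div_lt_of_lt_mul (by rwa [mul_comm] at ha)
    have hb' : b / A.nn < C.nn := Nat.div_lt_of_lt_mul (by rwa [mul_comm] at hb)
    have h0 := A.hneg _ (Nat.mod_lt b A.hnn)
    have h1 := A.hadd _ (Nat.mod_lt a A.hnn) _ (Nat.mod_lt b A.hnn)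
    have h2 := A.hadd _ h1.1 _ h0.1
    unfold pmul pinv
    rw [code_div h0.1, code_mod h0.1, code_div h1.1, code_mod h1.1, C.can3 _ ha' _ hb']
    have h3 : A.addc (A.addc (a % A.nn) (b % A.nn)) (A.negc (b % A.nn)) = a % A.nn := by
      apply A.heni _ h2.1 _ (Nat.mod_lt a A.hnn)
      rw [h2.2, h1.2, h0.2]
      abel
    rw [h3, Nat.div_add_mod']

end Product

/-- all quotients `b a⁻¹` of two elements of a base block -/
def diffs (C : CGrp) (full : List (List ℕ)) : List ℕ :=
  full.flatMap fun B => B.flatMap fun a => B.map fun b => C.mulc b (C.invc a)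

theorem mem_diffs {C : CGrp} {full : List (List ℕ)} {d : ℕ} :
    d ∈ diffs C full ↔ ∃ B ∈ full, ∃ a ∈ B, ∃ b ∈ B, C.mulc b (C.invc a) = d := by
  unfold diffs
  simp only [List.mem_flatMap, List.mem_map]

/-- a coded abelian group as a coded group -/
def ofCoded {N : Type} [AddCommGroup N] [Fintype N] (A : Coded N) : CGrp where
  nn := A.nn
  mulc := A.addc
  invc := A.negc
  hnn := A.hnn
  hmul := fun a ha b hb => (A.hadd a ha b hb).1
  hinv := fun a ha => (A.hneg a ha).1
  assoc := by
    intro a ha b hb c hc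
    have h1 := A.hadd a ha b hb
    have h2 := A.hadd b hb c hc
    have h3 := A.hadd _ h1.1 c hc
    have h4 := A.hadd a ha _ h2.1
    apply A.heni _ h3.1 _ h4.1
    rw [h3.2, h4.2, h1.2, h2.2, add_assoc]
  can1 := by
    intro a ha b hb
    have h0 := A.hneg b hb
    have h1 := A.hadd a ha _ h0.1
    have h2 := A.hadd _ h1.1 b hb
    apply A.heni _ h2.1 _ ha
    rw [h2.2, h1.2, h0.2]
    abel
  can2 := by
    intro a ha b hb
    have h0 := A.hneg a ha
    have h1 := A.hadd _ h0.1 b hb
    have h2 := A.hadd a ha _ h1.1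
    apply A.heni _ h2.1 _ hb
    rw [h2.2, h1.2, h0.2]
    abel
  can3 := by
    intro a ha b hb
    have h0 := A.hneg b hb
    have h1 := A.hadd a ha b hb
    have h2 := A.hadd _ h1.1 _ h0.1
    apply A.heni _ h2.1 _ ha
    rw [h2.2, h1.2, h0.2]
    abel

section Main

variable {N : Type} [AddCommGroup N] [Fintype N]

/-- place of the filler point `j` in the `y`-th coset -/
def plc (m q y j : ℕ) : ℕ := if j < m then j * q + y else m * q + (j - m)

/-- A Steiner system with a group of automorphisms that fixes `f` points and is regular on the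
others.  `full` are base blocks off the fixed points, `fill` (developed over the abelian factor)
and `fix` form a Steiner system on the cosets of the first factor with the fixed points. -/
theorem main (C : CGrp) (A : Coded N) (k f v : ℕ) (hv : C.nn * A.nn + f = v)
    (full fill fix : List (List ℕ))
    (h1 : full.all (okB k (C.nn * A.nn)) = true)
    (h2 : fill.all (okB k (C.nn + f)) = true)
    (h2' : fix.all (okB k (C.nn + f)) = true)
    (h3 : addBits (diffs (cprod C A) full) (addBits ((List.range C.nn).map fun i => i * A.nn) 0)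
      = 2 ^ (C.nn * A.nn) - 1)
    (h4 : ∀ i < C.nn + f, ∀ j < C.nn + f, i ≠ j → (∃ F ∈ fill, i ∈ F ∧ j ∈ F) ∨
      (C.nn ≤ i ∧ C.nn ≤ j ∧ ∃ F ∈ fix, i ∈ F ∧ j ∈ F))
    (h5 : (C.nn * A.nn * full.length + A.nn * fill.length + fix.length) * (k * k - k) ≤
      v * v - v) :
    ∃ 𝓑 : Set (Finset (Fin v)), IsS2 (Fin v) k 𝓑 := by
  classical
  have hq : 0 < A.nn := A.hnn
  by_cases hv0 : v = 0
  · subst hv0
    exact ⟨∅, fun B hB => absurd hB (Set.notMem_empty B), fun a => a.elim0⟩
  have hvN : NeZero v := ⟨hv0⟩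
  let el : ℕ → Fin v := fun p => Fin.ofNat v p
  have hel : ∀ p < v, (el p).val = p := fun p hp => by
    show p % v = p
    exact Nat.mod_eq_of_lt hp
  have heli : ∀ p < v, ∀ r < v, el p = el r → p = r := by
    intro p hp r hr h
    rw [← hel p hp, ← hel r hr, h]
  have hels : ∀ x : Fin v, el x.val = x := fun x => Fin.ext (hel _ x.2)
  let bk : List ℕ → (ℕ → ℕ) → Finset (Fin v) := fun B f => (B.map fun p => el (f p)).toFinset
  have hbk : ∀ (B : List ℕ) (f : ℕ → ℕ) (w : ℕ), okB k w B = true →
      (∀ p < w, f p < v) → (∀ p < w, ∀ r < w, f p = f r → p = r) →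
      (bk B f).card = k := by
    intro B f w hB hf1 hf2
    obtain ⟨ha, hb, hc⟩ := okB_spec hB
    show ((B.map fun p => el (f p)).toFinset).card = k
    rw [List.toFinset_card_of_nodup, List.length_map, ha]
    refine List.Nodup.map_on ?_ hb
    intro x hx y hy hxy
    exact hf2 x (hc x hx) y (hc y hy) (heli _ (hf1 x (hc x hx)) _ (hf1 y (hc y hy)) hxy)
  have hmem : ∀ (B : List ℕ) (f : ℕ → ℕ) (p : ℕ) (x : Fin v), p ∈ B →
      f p = x.val → x ∈ bk B f := by
    intro B f p x hp hx
    show x ∈ (B.map fun p => el (f p)).toFinset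
    rw [List.mem_toFinset, List.mem_map]
    exact ⟨p, hp, by rw [hx, hels]⟩
  let P := cprod C A
  let F1 : Finset (Finset (Fin v)) :=
    (full.toFinset ×ˢ Finset.range (C.nn * A.nn)).image
      (fun s => bk s.1 (fun p => P.mulc p s.2))
  let F2 : Finset (Finset (Fin v)) :=
    (fill.toFinset ×ˢ Finset.range A.nn).image (fun s => bk s.1 (plc C.nn A.nn s.2))
  let F3 : Finset (Finset (Fin v)) := fix.toFinset.image (fun s => bk s (plc C.nn A.nn 0))
  have hplc1 : ∀ y < A.nn, ∀ p < C.nn + f, plc C.nn A.nn y p < v := by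
    intro y hy p hp
    unfold plc
    split_ifs with hpm
    · have := code_lt hpm hy
      omega
    · omega
  have hplc2 : ∀ y < A.nn, ∀ p < C.nn + f, ∀ r < C.nn + f,
      plc C.nn A.nn y p = plc C.nn A.nn y r → p = r := by
    intro y hy p hp r hr h
    unfold plc at h
    split_ifs at h with hpm hrm hrm
    · rw [← code_div (i := p) hy, ← code_div (i := r) hy, h]
    · have := code_lt hpm hy
      omega
    · have := code_lt hrm hy
      omega
    · omega
  rw [List.all_eq_true] at h1 h2 h2'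
  have hF2 : ∀ F ∈ fill, ∀ y < A.nn, bk F (plc C.nn A.nn y) ∈ F1 ∪ (F2 ∪ F3) := by
    intro F hF y hy
    rw [Finset.mem_union, Finset.mem_union]
    refine Or.inr (Or.inl ?_)
    rw [Finset.mem_image]
    refine ⟨(F, y), ?_, rfl⟩
    rw [Finset.mem_product, List.mem_toFinset, Finset.mem_range]
    exact ⟨hF, hy⟩
  -- every point is a placed filler point
  have hpt : ∀ x : Fin v, (x.val < C.nn * A.nn ∧ x.val / A.nn < C.nn ∧
      plc C.nn A.nn (x.val % A.nn) (x.val / A.nn) = x.val) ∨
      (C.nn * A.nn ≤ x.val ∧ C.nn + (x.val - C.nn * A.nn) < C.nn + f ∧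
        ∀ y, plc C.nn A.nn y (C.nn + (x.val - C.nn * A.nn)) = x.val) := by
    intro x
    by_cases hx : x.val < C.nn * A.nn
    · left
      have hxn : x.val / A.nn < C.nn := code_dlt hx
      refine ⟨hx, hxn, ?_⟩
      unfold plc
      rw [if_pos hxn, Nat.div_add_mod']
    · right
      have := x.2
      refine ⟨by omega, by omega, ?_⟩
      intro y
      unfold plc
      rw [if_neg (by omega)]
      omega
  refine pair_main k (F1 ∪ (F2 ∪ F3)) ?_ ?_ ?_
  · intro B hB
    rw [Finset.mem_union, Finset.mem_union, Finset.mem_image, Finset.mem_image,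
      Finset.mem_image] at hB
    rcases hB with ⟨s, hs, rfl⟩ | ⟨s, hs, rfl⟩ | ⟨s, hs, rfl⟩
    · rw [Finset.mem_product, List.mem_toFinset, Finset.mem_range] at hs
      refine hbk s.1 _ (C.nn * A.nn) (h1 s.1 hs.1) ?_ ?_
      · intro p hp
        have h6 : P.mulc p s.2 < C.nn * A.nn := P.hmul p hp s.2 hs.2
        show P.mulc p s.2 < v
        omega
      · intro p hp r hr h
        rw [← P.can3 p hp s.2 hs.2, ← P.can3 r hr s.2 hs.2]
        have h' : P.mulc p s.2 = P.mulc r s.2 := h
        rw [h']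
    · rw [Finset.mem_product, List.mem_toFinset, Finset.mem_range] at hs
      exact hbk s.1 _ (C.nn + f) (h2 s.1 hs.1) (hplc1 s.2 hs.2) (hplc2 s.2 hs.2)
    · rw [List.mem_toFinset] at hs
      exact hbk s _ (C.nn + f) (h2' s hs) (hplc1 0 hq) (hplc2 0 hq)
  · intro x z hxz
    have hvne : x.val ≠ z.val := fun h => hxz (Fin.ext h)
    rcases hpt x with ⟨hx, hxn, hxp⟩ | ⟨hx, hxn, hxp⟩
    · rcases hpt z with ⟨hz, hzn, hzp⟩ | ⟨hz, hzn, hzp⟩
      · by_cases hy : x.val % A.nn = z.val % A.nn
        · -- same coset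
          have hne : x.val / A.nn ≠ z.val / A.nn := by
            intro h
            apply hvne
            rw [← Nat.div_add_mod x.val A.nn, ← Nat.div_add_mod z.val A.nn, h, hy]
          rcases h4 _ (Nat.lt_add_right f hxn) _ (Nat.lt_add_right f hzn) hne with
            ⟨F, hF, hi, hj⟩ | ⟨hi, _, _⟩
          · refine ⟨bk F (plc C.nn A.nn (x.val % A.nn)), hF2 F hF _ (Nat.mod_lt _ hq), ?_, ?_⟩
            · exact hmem _ _ _ _ hi hxp
            · refine hmem _ _ _ _ hj ?_
              rw [hy]; exact hzp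
          · omega
        · -- different cosets
          have hd : P.mulc z.val (P.invc x.val) < C.nn * A.nn :=
            P.hmul _ hz _ (P.hinv _ hx)
          have h6 : Nat.testBit (2 ^ (C.nn * A.nn) - 1) (P.mulc z.val (P.invc x.val)) = true := by
            rw [Nat.testBit_two_pow_sub_one]
            exact decide_eq_true hd
          rw [← h3, addBits_spec, addBits_spec] at h6
          rcases h6 with (h6 | h6) | h6
          · simp at h6
          · exfalso
            obtain ⟨i, hi, h7⟩ := List.mem_map.1 h6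
            apply hy
            have h8 : P.mulc z.val (P.invc x.val) % A.nn = 0 := by
              rw [← h7, Nat.mul_mod_left]
            have h0 := A.hneg _ (Nat.mod_lt x.val hq)
            have h9 := A.hadd _ (Nat.mod_lt z.val hq) _ h0.1
            have h10 : P.mulc z.val (P.invc x.val) % A.nn =
                A.addc (z.val % A.nn) (A.negc (x.val % A.nn)) := by
              show pmul A.nn C.mulc A.addc z.val (pinv A.nn C.invc A.negc x.val) % A.nn = _
              unfold pmul pinv
              rw [code_mod h0.1, code_mod h9.1]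
            rw [h10] at h8
            have h11 := h9.2
            rw [h8, A.hen0, h0.2] at h11
            apply A.heni _ (Nat.mod_lt _ hq) _ (Nat.mod_lt _ hq)
            have h12 : A.en (z.val % A.nn) - A.en (x.val % A.nn) = 0 := by
              rw [sub_eq_add_neg, ← h11]
            exact (sub_eq_zero.1 h12).symm
          · rw [mem_diffs] at h6
            obtain ⟨B, hB, a, ha, b, hb, hab⟩ := h6
            have hok := (okB_spec (h1 B hB)).2.2
            have haP := hok a ha
            have hbP := hok b hb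
            refine ⟨bk B (fun p => P.mulc p (P.mulc (P.invc a) x.val)), ?_, ?_, ?_⟩
            · rw [Finset.mem_union, Finset.mem_image]
              refine Or.inl ⟨(B, P.mulc (P.invc a) x.val), ?_, rfl⟩
              rw [Finset.mem_product, List.mem_toFinset, Finset.mem_range]
              exact ⟨hB, P.hmul _ (P.hinv _ haP) _ hx⟩
            · refine hmem _ _ a _ ha ?_
              exact P.can2 _ haP _ hx
            · refine hmem _ _ b _ hb ?_
              show P.mulc b (P.mulc (P.invc a) x.val) = z.val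
              rw [← P.assoc _ hbP _ (P.hinv _ haP) _ hx]
              have hab' : P.mulc b (P.invc a) = P.mulc z.val (P.invc x.val) := hab
              rw [hab']
              exact P.can1 _ hz _ hx
      · -- z is a fixed point
        rcases h4 _ (Nat.lt_add_right f hxn) _ hzn (by omega) with ⟨F, hF, hi, hj⟩ | ⟨hi, _, _⟩
        · exact ⟨bk F (plc C.nn A.nn (x.val % A.nn)), hF2 F hF _ (Nat.mod_lt _ hq),
            hmem _ _ _ _ hi hxp, hmem _ _ _ _ hj (hzp _)⟩
        · omega
    · rcases hpt z with ⟨hz, hzn, hzp⟩ | ⟨hz, hzn, hzp⟩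
      · rcases h4 _ hxn _ (Nat.lt_add_right f hzn) (by omega) with ⟨F, hF, hi, hj⟩ | ⟨_, hi, _⟩
        · exact ⟨bk F (plc C.nn A.nn (z.val % A.nn)), hF2 F hF _ (Nat.mod_lt _ hq),
            hmem _ _ _ _ hi (hxp _), hmem _ _ _ _ hj hzp⟩
        · omega
      · -- both are fixed points
        rcases h4 _ hxn _ hzn (by omega) with ⟨F, hF, hi, hj⟩ | ⟨_, _, F, hF, hi, hj⟩
        · exact ⟨bk F (plc C.nn A.nn 0), hF2 F hF 0 hq, hmem _ _ _ _ hi (hxp 0),
            hmem _ _ _ _ hj (hzp 0)⟩
        · refine ⟨bk F (plc C.nn A.nn 0), ?_, hmem _ _ _ _ hi (hxp 0), hmem _ _ _ _ hj (hzp 0)⟩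
          rw [Finset.mem_union, Finset.mem_union]
          refine Or.inr (Or.inr ?_)
          rw [Finset.mem_image]
          exact ⟨F, List.mem_toFinset.2 hF, rfl⟩
  · -- counting
    rw [Fintype.card_fin]
    refine le_trans (Nat.mul_le_mul_right _ ?_) h5
    rw [Nat.add_assoc]
    refine le_trans (Finset.card_union_le _ _) (Nat.add_le_add ?_
      (le_trans (Finset.card_union_le _ _) (Nat.add_le_add ?_ ?_)))
    · refine le_trans Finset.card_image_le ?_
      rw [Finset.card_product, Finset.card_range, mul_comm]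
      exact Nat.mul_le_mul_left _ (List.toFinset_card_le _)
    · refine le_trans Finset.card_image_le ?_
      rw [Finset.card_product, Finset.card_range, mul_comm]
      exact Nat.mul_le_mul_left _ (List.toFinset_card_le _)
    · exact le_trans Finset.card_image_le (List.toFinset_card_le _)

end Main

/-- a finite conjunction -/
def allB : ℕ → (ℕ → Bool) → Bool
  | 0, _ => true
  | n + 1, p => p n && allB n p

theorem allB_spec {p : ℕ → Bool} : ∀ n, allB n p = true → ∀ a < n, p a = true := by
  intro n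
  induction n with
  | zero => intro _ a ha; omega
  | succ n ih =>
    intro h a ha
    rw [allB, Bool.and_eq_true] at h
    rcases Nat.lt_succ_iff_lt_or_eq.1 ha with h1 | h1
    · exact ih h.2 a h1
    · rw [h1]; exact h.1

/-- test that the blocks in `fill` and `fix` cover all pairs -/
def coverB (m f : ℕ) (fill fix : List (List ℕ)) : Bool :=
  allB (m + f) fun i => allB (m + f) fun j => i == j || (fill.any fun F => F.contains i &&
    F.contains j) || (decide (m ≤ i) && decide (m ≤ j) && fix.any fun F => F.contains i &&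
    F.contains j)

theorem coverB_spec {m f : ℕ} {fill fix : List (List ℕ)} (h : coverB m f fill fix = true) :
    ∀ i < m + f, ∀ j < m + f, i ≠ j → (∃ F ∈ fill, i ∈ F ∧ j ∈ F) ∨
      (m ≤ i ∧ m ≤ j ∧ ∃ F ∈ fix, i ∈ F ∧ j ∈ F) := by
  intro i hi j hj hij
  have h1 := allB_spec _ (allB_spec _ h i hi) j hj
  simp only [Bool.or_eq_true, beq_iff_eq, List.any_eq_true, Bool.and_eq_true,
    decide_eq_true_eq, List.contains_iff_mem] at h1
  rcases h1 with (h1 | h1) | h1
  · exact absurd h1 hij
  · exact Or.inl h1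
  · exact Or.inr ⟨h1.1.1, h1.1.2, h1.2⟩

/-- base blocks `h • B`, `h ∈ hs`, for a block with coordinates `xs` and `ys` -/
def scaled (q : ℕ) (hs xs ys : List ℕ) : List (List ℕ) :=
  hs.map fun h => List.zipWith (fun x y => x * q + h * y % q) xs ys

/-- the powers `g ^ 0, …, g ^ (n-1)` modulo `q` -/
def pows (q g n : ℕ) : List ℕ := (List.range n).map fun i => g ^ i % q

theorem toSteiner {m k : ℕ} (h : ∃ 𝓑 : Set (Finset (Fin m)), IsS2 (Fin m) k 𝓑) :
    ∃ 𝓑 : Finset (Finset (Fin m)), Pool.Agent.H816R2.DF.IsSteiner m k 2 𝓑 := by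
  classical
  obtain ⟨𝓑, h1, h2⟩ := h
  refine ⟨Finset.univ.filter (fun B => B ∈ 𝓑), ?_, ?_⟩
  · intro B hB
    exact h1 B (Finset.mem_filter.1 hB).2
  · intro T hT
    obtain ⟨a, b, hab, rfl⟩ := Finset.card_eq_two.1 hT
    obtain ⟨B, ⟨hB, ha, hb⟩, hu⟩ := h2 a b hab
    have hsub : ∀ C : Finset (Fin m), ({a, b} : Finset (Fin m)) ⊆ C ↔ a ∈ C ∧ b ∈ C := by
      intro C
      rw [Finset.insert_subset_iff, Finset.singleton_subset_iff]
    refine ⟨B, ⟨Finset.mem_filter.2 ⟨Finset.mem_univ _, hB⟩, (hsub B).2 ⟨ha, hb⟩⟩, ?_⟩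
    rintro C ⟨hC, hC'⟩
    obtain ⟨ha', hb'⟩ := (hsub C).1 hC'
    exact hu C ⟨(Finset.mem_filter.1 hC).2, ha', hb'⟩

end Pool.Agent.H216R3.StGrp
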